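import Pool.Agent.Q292.LC.Stm7
import Pool.Agent.Q187.LC.Nas
import Pool.Agent.TH268.PD.TopLip
import Pool.Agent.TH268.PD.LipApprox
import Pool.Agent.Y998.LP.Defs

/-!
# Fractions of boxes and fractions of the torus
-/

set_option autoImplicit false

namespace Run7.h565.LC

open Finset Equiv Q292.LC
open Pool.Agent.TH268.PD (top frac Cyc cyOf)
open Pool.Agent.Y998.LP (bfrac)

noncomputable instance cycFin {W : Type} [Finite W] (h : Perm W) : Fintype (Cyc h) :=
  Fintype.ofFinite _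

open Classical in
theorem bfrac_sum {V : Type} (B : Finset V) (g : Perm V) (γ : Cyc g) :
    bfrac B g γ = (∑ v ∈ B, if cyOf g v = γ then (1 : ℝ) else 0) / B.card := by
  have h1 : Nat.card {v : V // v ∈ B ∧ cyOf g v = γ} = (B.filter fun v => cyOf g v = γ).card := by
    rw [← Fintype.card_coe, ← Nat.card_eq_fintype_card]
    refine Nat.card_congr (Equiv.subtypeEquivRight fun v => ?_)
    rw [Finset.mem_filter]
  unfold bfrac
  rw [h1, Finset.sum_boole]

theorem frac_bfrac {V : Type} [Fintype V] (g : Perm V) : frac g = bfrac Finset.univ g := by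
  funext γ
  unfold bfrac frac
  rw [Finset.card_univ]
  congr 2
  exact Nat.card_congr (Equiv.subtypeEquivRight fun v => by simp)

theorem bfrac_nonneg {V : Type} (B : Finset V) (g : Perm V) (γ : Cyc g) : 0 ≤ bfrac B g γ := by
  unfold bfrac
  positivity

theorem bfrac_le_one {V : Type} (B : Finset V) (g : Perm V) (γ : Cyc g) : bfrac B g γ ≤ 1 := by
  classical
  rw [bfrac_sum]
  refine div_le_one_of_le₀ ?_ (by positivity)
  refine (Finset.sum_le_sum fun v _ => (?_ : _ ≤ (1 : ℝ))).trans ?_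
  · split_ifs <;> norm_num
  · simp

theorem cyOf_eq {V : Type} (g : Perm V) (x y : V) : cyOf g x = cyOf g y ↔ g.SameCycle x y :=
  Quotient.eq

open Classical in
theorem sum_sq_cyc {V : Type} [Fintype V] (B : Finset V) (g : Perm V)
    (dec : ∀ x y, Decidable (g.SameCycle x y)) :
    ∑ γ : Cyc g, (∑ v ∈ B, if cyOf g v = γ then (1 : ℝ) else 0) ^ 2 =
      ∑ x ∈ B, ∑ y ∈ B, @ite ℝ (g.SameCycle x y) (dec x y) 1 0 := by
  have h1 : ∀ γ : Cyc g, (∑ v ∈ B, if cyOf g v = γ then (1 : ℝ) else 0) ^ 2 =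
      ∑ x ∈ B, ∑ y ∈ B, (if cyOf g x = γ then (1 : ℝ) else 0) * (if cyOf g y = γ then 1 else 0) := by
    intro γ
    rw [sq, Finset.sum_mul_sum]
  rw [Finset.sum_congr rfl fun γ _ => h1 γ, Finset.sum_comm]
  refine Finset.sum_congr rfl fun x _ => ?_
  rw [Finset.sum_comm]
  refine Finset.sum_congr rfl fun y _ => ?_
  have h2 : ∀ γ : Cyc g, (if cyOf g x = γ then (1 : ℝ) else 0) * (if cyOf g y = γ then 1 else 0) =
      if cyOf g x = γ then (if cyOf g y = cyOf g x then 1 else 0) else 0 := by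
    intro γ
    by_cases hx : cyOf g x = γ
    · subst hx; simp
    · simp [hx]
  rw [Finset.sum_congr rfl fun γ _ => h2 γ, Finset.sum_ite_eq, if_pos (Finset.mem_univ _)]
  by_cases hxy : g.SameCycle x y
  · rw [if_pos hxy, if_pos ((cyOf_eq g y x).2 hxy.symm)]
  · rw [if_neg hxy, if_neg (fun h => hxy ((cyOf_eq g y x).1 h).symm)]

variable {d L : ℕ} [NeZero L]

theorem box_var (g : Perm (Fin d → ZMod L)) (r : ℕ) (hr : 1 ≤ r) (hrL : r ≤ L) :
    (∑ z, ∑ γ : Cyc g, (bfrac (box z r) g γ - frac g γ) ^ 2) / (L : ℝ) ^ d =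
      Qb r g - Qv g := by
  classical
  have hL0 : 0 < L := Nat.pos_of_ne_zero (NeZero.ne L)
  have hN : (0 : ℝ) < (L : ℝ) ^ d := by positivity
  have hR : (0 : ℝ) < (r : ℝ) ^ d := by
    have : (0 : ℝ) < r := by exact_mod_cast hr
    positivity
  have hb : ∀ z (γ : Cyc g), bfrac (box z r) g γ =
      (∑ v ∈ box z r, if cyOf g v = γ then (1 : ℝ) else 0) / (r : ℝ) ^ d := by
    intro z γ
    rw [bfrac_sum, Pool.Agent.Q187.LC.Nas.card_box z r hrL]
    push_cast
    rfl
  have hc : ∀ γ : Cyc g, frac g γ =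
      (∑ v, if cyOf g v = γ then (1 : ℝ) else 0) / (L : ℝ) ^ d := by
    intro γ
    rw [frac_bfrac, bfrac_sum, Finset.card_univ, Fintype.card_fun, ZMod.card, Fintype.card_fin]
    push_cast
    rfl
  have h1 : ∀ γ : Cyc g, ∑ z, bfrac (box z r) g γ = (L : ℝ) ^ d * frac g γ := by
    intro γ
    rw [Finset.sum_congr rfl fun z _ => hb z γ, ← Finset.sum_div, hc]
    have h2 := Pool.Agent.Q187.LC.Nas.sum_cover (d := d) r hrL ∅
      (fun v => if cyOf g v = γ then (1 : ℝ) else 0)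
    simp only [Finset.sdiff_empty] at h2
    rw [h2]
    field_simp
  have h3 : ∀ z, ∑ γ : Cyc g, (bfrac (box z r) g γ) ^ 2 =
      (∑ x ∈ box z r, ∑ y ∈ box z r, if g.SameCycle x y then (1 : ℝ) else 0) /
        (r : ℝ) ^ (2 * d) := by
    intro z
    rw [← sum_sq_cyc (box z r) g (fun _ _ => inferInstance), Finset.sum_div]
    refine Finset.sum_congr rfl fun γ _ => ?_
    rw [hb, div_pow, ← pow_mul, mul_comm d 2]
    congr!
  have h4 : ∑ γ : Cyc g, (frac g γ) ^ 2 =
      (∑ x : Fin d → ZMod L, ∑ y : Fin d → ZMod L, if g.SameCycle x y then (1 : ℝ) else 0) /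
        (L : ℝ) ^ (2 * d) := by
    rw [← sum_sq_cyc Finset.univ g (fun _ _ => inferInstance), Finset.sum_div]
    refine Finset.sum_congr rfl fun γ _ => ?_
    rw [hc, div_pow, ← pow_mul, mul_comm d 2]
    congr!
  have h5 : ∑ z, ∑ γ : Cyc g, (bfrac (box z r) g γ - frac g γ) ^ 2 =
      ∑ z, ∑ γ : Cyc g, (bfrac (box z r) g γ) ^ 2 - (L : ℝ) ^ d * ∑ γ : Cyc g, (frac g γ) ^ 2 := by
    have e1 : ∀ z (γ : Cyc g), (bfrac (box z r) g γ - frac g γ) ^ 2 =
        (bfrac (box z r) g γ) ^ 2 - 2 * (frac g γ * bfrac (box z r) g γ) + (frac g γ) ^ 2 := by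
      intro z γ; ring
    have e2 : ∑ z, ∑ γ : Cyc g, frac g γ * bfrac (box z r) g γ =
        (L : ℝ) ^ d * ∑ γ : Cyc g, (frac g γ) ^ 2 := by
      rw [Finset.sum_comm, Finset.mul_sum]
      refine Finset.sum_congr rfl fun γ _ => ?_
      rw [← Finset.mul_sum, h1]
      ring
    have e3 : ∑ z : Fin d → ZMod L, ∑ γ : Cyc g, (frac g γ) ^ 2 =
        (L : ℝ) ^ d * ∑ γ : Cyc g, (frac g γ) ^ 2 := by
      rw [Finset.sum_const, Finset.card_univ, Fintype.card_fun, ZMod.card, Fintype.card_fin,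
        nsmul_eq_mul]
      push_cast
      rfl
    simp only [e1, Finset.sum_add_distrib, Finset.sum_sub_distrib, ← Finset.mul_sum]
    rw [e3]
    rw [e2]
    ring
  rw [h5, h4]
  unfold Qb Qv
  rw [Finset.sum_congr rfl fun z _ => h3 z, ← Finset.sum_div, sub_div]
  congr 1
  · rw [div_div, mul_comm ((r : ℝ) ^ (2 * d))]
  · rw [two_mul, pow_add]
    field_simp

/-- a Lipschitz function of the ordered fractions -/
theorem lip_var (g : Perm (Fin d → ZMod L)) (r : ℕ) (hr : 1 ≤ r) (hrL : r ≤ L) (m : ℕ)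
    (f : (Fin m → ℝ) → ℝ) (Λ η : ℝ) (hη : 0 < η)
    (hf : ∀ (u v : Fin m → ℝ) (e : ℝ), 0 ≤ e → (∀ i, |u i - v i| ≤ e) → |f u - f v| ≤ Λ * e) :
    |f (fun i => top (frac g) i) -
      (∑ z, f (fun i => top (bfrac (box z r) g) i)) / (L : ℝ) ^ d| ≤
      η + Λ ^ 2 / (4 * η) * (Qb r g - Qv g) := by
  classical
  have hL0 : 0 < L := Nat.pos_of_ne_zero (NeZero.ne L)
  have hN : (0 : ℝ) < (L : ℝ) ^ d := by positivity
  have hcard : ((Finset.univ : Finset (Fin d → ZMod L)).card : ℝ) = (L : ℝ) ^ d := by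
    rw [Finset.card_univ, Fintype.card_fun, ZMod.card, Fintype.card_fin]
    push_cast
    rfl
  have h1 : ∀ z, |f (fun i => top (frac g) i) - f (fun i => top (bfrac (box z r) g) i)| ≤
      η + Λ ^ 2 / (4 * η) * ∑ γ : Cyc g, (bfrac (box z r) g γ - frac g γ) ^ 2 := by
    intro z
    obtain ⟨S, hS⟩ : ∃ S : ℝ, S = ∑ γ : Cyc g, (bfrac (box z r) g γ - frac g γ) ^ 2 := ⟨_, rfl⟩
    have hS0 : 0 ≤ S := by rw [hS]; positivity
    have h2 : ∀ γ : Cyc g, |frac g γ - bfrac (box z r) g γ| ≤ Real.sqrt S := by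
      intro γ
      rw [abs_sub_comm]
      refine Real.abs_le_sqrt ?_
      rw [hS]
      exact Finset.single_le_sum (f := fun γ : Cyc g => (bfrac (box z r) g γ - frac g γ) ^ 2)
        (fun i _ => sq_nonneg _) (Finset.mem_univ γ)
    have h3 : ∀ i : Fin m, |top (frac g) i - top (bfrac (box z r) g) i| ≤ Real.sqrt S := by
      intro i
      refine Pool.Agent.TH268.PD.top_lip (frac g) (bfrac (box z r) g) ?_ ?_ (Real.sqrt S)
        (Real.sqrt_nonneg S) h2 i
      · intro γ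
        rw [frac_bfrac]
        exact bfrac_nonneg _ _ _
      · intro γ
        exact bfrac_nonneg _ _ _
    refine (hf _ _ (Real.sqrt S) (Real.sqrt_nonneg S) h3).trans ?_
    rw [← hS]
    have h4 : S = Real.sqrt S ^ 2 := (Real.sq_sqrt hS0).symm
    have h5 : 0 ≤ (η - Λ * Real.sqrt S / 2) ^ 2 / η := by positivity
    have h6 : (η - Λ * Real.sqrt S / 2) ^ 2 / η =
        η - Λ * Real.sqrt S + Λ ^ 2 / (4 * η) * Real.sqrt S ^ 2 := by
      field_simp
      ring
    rw [h6, ← h4] at h5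
    linarith
  have h2 : f (fun i => top (frac g) i) -
      (∑ z, f (fun i => top (bfrac (box z r) g) i)) / (L : ℝ) ^ d =
      (∑ z : Fin d → ZMod L, (f (fun i => top (frac g) i) -
        f (fun i => top (bfrac (box z r) g) i))) / (L : ℝ) ^ d := by
    rw [Finset.sum_sub_distrib, Finset.sum_const, nsmul_eq_mul, hcard]
    field_simp
  rw [h2, abs_div, abs_of_pos hN, div_le_iff₀ hN]
  refine (Finset.abs_sum_le_sum_abs _ _).trans ((Finset.sum_le_sum fun z _ => h1 z).trans ?_)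
  rw [Finset.sum_add_distrib, ← Finset.mul_sum, Finset.sum_const, nsmul_eq_mul, hcard,
    ← box_var g r hr hrL]
  refine le_of_eq ?_
  field_simp

end Run7.h565.LC
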