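import Pool.Agent.Run7.h565.LC.Box
import Pool.Agent.Q297.LC.Lim
import Pool.Agent.Q257.LC.Geo
import Pool.Agent.Q53.LC.Poi
import Pool.Agent.Y998.LQ.Final

/-!
# From circuits to the Poisson-Dirichlet law
-/

set_option autoImplicit false

namespace Run7.h565.LC

open Finset Equiv Q292.LC
open Pool.Agent.TH268.PD (top frac Cyc cyOf pdm top_nonneg top_le_one lip_approx)
open Pool.Agent.Y998.LP (bfrac NN tdist)
open Pool.Agent.Y998.ST (stirExp stirLaw nnRate law_nonneg nn_nonneg)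

variable {d L : ℕ} [NeZero L]

theorem Q_diff_bd (g : Perm (Fin d → ZMod L)) (r : ℕ) (hr : 1 ≤ r) (hrL : r ≤ L) :
    0 ≤ Qb r g - Qv g ∧ Qb r g - Qv g ≤ 1 := by
  classical
  have hL0 : 0 < L := Nat.pos_of_ne_zero (NeZero.ne L)
  have hN : (0 : ℝ) < (L : ℝ) ^ d := by positivity
  have hr0 : (0 : ℝ) < r := by exact_mod_cast hr
  constructor
  · rw [← box_var g r hr hrL]
    positivity
  · have h1 : 0 ≤ Qv g := by
      unfold Qv
      refine div_nonneg (Finset.sum_nonneg fun x _ => Finset.sum_nonneg fun y _ => ?_)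
        (by positivity)
      split_ifs <;> norm_num
    have h2 : Qb r g ≤ 1 := by
      unfold Qb
      refine div_le_one_of_le₀ ?_ (by positivity)
      have h3 : ∀ z : Fin d → ZMod L, ((box z r).card : ℝ) = (r : ℝ) ^ d := by
        intro z
        rw [Pool.Agent.Q187.LC.Nas.card_box z r hrL]
        push_cast
        rfl
      calc _ ≤ ∑ z : Fin d → ZMod L, ∑ x ∈ box z r, ∑ y ∈ box z r, (1 : ℝ) := by
            refine Finset.sum_le_sum fun z _ => Finset.sum_le_sum fun x _ =>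
              Finset.sum_le_sum fun y _ => ?_
            split_ifs <;> norm_num
        _ = (L : ℝ) ^ d * (r : ℝ) ^ (2 * d) := by
            simp only [Finset.sum_const, nsmul_eq_mul, mul_one, h3]
            rw [Finset.card_univ, Fintype.card_fun, ZMod.card, Fintype.card_fin]
            push_cast
            ring
    linarith

theorem stir_lin {V : Type} [Fintype V] [DecidableEq V] {J : V → V → ℝ} (hJ : ∀ x y, 0 ≤ J x y)
    {t : ℝ} (ht : 0 ≤ t) (F G H : Perm V → ℝ) (c : ℝ)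
    (h : ∀ g, |F g - G g| ≤ c + H g) :
    |stirExp J t F - stirExp J t G| ≤ c + stirExp J t H := by
  unfold stirExp
  rw [← Finset.sum_sub_distrib]
  refine (Finset.abs_sum_le_sum_abs _ _).trans ?_
  have h1 : c + ∑ g, stirLaw J t g * H g = ∑ g, stirLaw J t g * (c + H g) := by
    simp only [mul_add, Finset.sum_add_distrib, ← Finset.sum_mul]
    rw [Pool.Agent.Y998.CN.law_sum, one_mul]
  rw [h1]
  refine Finset.sum_le_sum fun g _ => ?_
  rw [← mul_sub, abs_mul, abs_of_nonneg (law_nonneg hJ ht g)]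
  exact mul_le_mul_of_nonneg_left (h g) (law_nonneg hJ ht g)

theorem stir_avg {V ι : Type} [Fintype V] [DecidableEq V] [Fintype ι] (J : V → V → ℝ)
    (t : ℝ) (F : ι → Perm V → ℝ) (N : ℝ) :
    stirExp J t (fun g => (∑ z, F z g) / N) = (∑ z, stirExp J t (F z)) / N := by
  unfold stirExp
  rw [Finset.sum_comm, Finset.sum_div]
  refine Finset.sum_congr rfl fun g _ => ?_
  rw [← Finset.mul_sum]
  ring

/-- the Poisson-Dirichlet law for the torus at the times `(log L) ^ m ≤ t ≤ L ^ (3 / 2)` -/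
theorem pd_mid (hDEV : S_DEV) (d : ℕ) (hd : 3 ≤ d) : ∃ m₀ : ℕ,
    ∀ (m : ℕ) (f : (Fin m → ℝ) → ℝ), Continuous f → ∀ M : ℝ, (∀ u, |f u| ≤ M) →
    ∀ η : ℝ, 0 < η → ∃ L₀ : ℕ, ∀ (L : ℕ) [NeZero L], L₀ ≤ L → ∀ t : ℝ,
    (Real.log L) ^ m₀ ≤ t → t ^ 2 ≤ (L : ℝ) ^ 3 →
    |stirExp (nnRate d L) t (fun g => f (fun i => top (frac g) i)) - pdm f| ≤ η := by
  classical
  obtain ⟨mD, h₀, hDEV⟩ := hDEV d hd
  refine ⟨mD + 1, ?_⟩
  intro m f hfc M hM η hη
  obtain ⟨Λ, F, hΛ, _, _, hFL, hfF⟩ := lip_approx m f hfc M hM (η / 16) (by positivity)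
  obtain ⟨δp, hδp, N₀, hN₀, hpd⟩ := Pool.Agent.Y998.LQ.pd_gen m f hfc M hM (η / 4) (by positivity)
  obtain ⟨C, hC, hdist⟩ := Pool.Agent.Y998.LQ.t_dist d (by omega)
  obtain ⟨h, hh1, hh2, hh3⟩ : ∃ h : ℕ, h₀ ≤ h ∧ 1 ≤ h ∧ C * d / δp ≤ h := by
    obtain ⟨n, hn⟩ := exists_nat_ge (C * d / δp)
    refine ⟨max (max h₀ 1) n, ?_, ?_, ?_⟩
    · exact (le_max_left _ _).trans (le_max_left _ _)
    · exact (le_max_right _ _).trans (le_max_left _ _)
    · exact hn.trans (by exact_mod_cast le_max_right _ _)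
  obtain ⟨c, hc⟩ : ∃ c : ℝ, c = Λ ^ 2 / (4 * (η / 8)) := ⟨_, rfl⟩
  have hc0 : 0 ≤ c := by rw [hc]; positivity
  obtain ⟨ηD, hηD⟩ : ∃ ηD : ℝ, ηD = η / (8 * (c + 1)) := ⟨_, rfl⟩
  have hηD0 : 0 < ηD := by rw [hηD]; positivity
  obtain ⟨L₁, hD⟩ := hDEV h hh1 ηD hηD0
  -- the lower bound for `log L`
  obtain ⟨L₂, hL₂⟩ : ∃ L₂ : ℕ, ∀ L : ℕ, L₂ ≤ L → (2 * ((h * N₀) ^ 2 + 2 : ℝ)) ≤ Real.log L := by
    obtain ⟨n, hn⟩ := exists_nat_ge (Real.exp (2 * ((h * N₀) ^ 2 + 2 : ℝ)))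
    refine ⟨n, fun L hL => ?_⟩
    rw [Real.le_log_iff_exp_le]
    · exact hn.trans (by exact_mod_cast hL)
    · have h1 : (n : ℝ) ≤ L := by exact_mod_cast hL
      exact lt_of_lt_of_le (Real.exp_pos _) (hn.trans h1)
  refine ⟨max (max L₁ L₂) 3, ?_⟩
  intro L _ hL t ht htL
  have hL1 : L₁ ≤ L := (le_max_left _ _).trans ((le_max_left _ _).trans hL)
  have hL2 : L₂ ≤ L := (le_max_right _ _).trans ((le_max_left _ _).trans hL)
  have hL3 : 3 ≤ L := (le_max_right _ _).trans hL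
  have hlog := hL₂ L hL2
  have hlog4 : 4 ≤ Real.log L := by
    have : (0 : ℝ) ≤ ((h : ℝ) * N₀) ^ 2 := sq_nonneg _
    linarith
  have hlogm : (1 : ℝ) ≤ (Real.log L) ^ mD := one_le_pow₀ (by linarith)
  have ht1 : Real.log L * (Real.log L) ^ mD ≤ t := by rwa [pow_succ'] at ht
  have htlog : Real.log L ≤ t := by nlinarith
  have ht4 : 4 ≤ t := by linarith
  obtain ⟨K, hK⟩ : ∃ K : ℕ, K = ⌊t⌋₊ := ⟨_, rfl⟩
  have hKt : (K : ℝ) ≤ t := by rw [hK]; exact Nat.floor_le (by linarith)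
  have htK : t < K + 1 := by rw [hK]; exact Nat.lt_floor_add_one t
  have hK1 : 1 ≤ K := by
    have : (3 : ℝ) < K := by linarith
    have : 3 < K := by exact_mod_cast this
    omega
  have hK1' : (1 : ℝ) ≤ K := by exact_mod_cast hK1
  have ht2K : t ≤ 2 * K := by linarith
  have hKlog : (Real.log L) ^ mD ≤ K := by
    have h1 : 4 * (Real.log L) ^ mD ≤ t := by nlinarith
    linarith
  have hKL : K ^ 2 ≤ L ^ 3 := by
    have h1 : (K : ℝ) ^ 2 ≤ (L : ℝ) ^ 3 := (pow_le_pow_left₀ (by linarith) hKt 2).trans htL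
    exact_mod_cast h1
  obtain ⟨q₀, hq₀⟩ := hD L K hL1 hKlog hKL
  obtain ⟨r, hr⟩ : ∃ r : ℕ, r = Nat.sqrt K / h := ⟨_, rfl⟩
  have hrr : 1 ≤ r ∧ r ≤ L := by
    obtain ⟨σ, hσ⟩ := Pool.Agent.Q297.LC.exists_Per d L (by omega)
    have hq1 : (0 : ℝ) < ((max q₀ 1 : ℕ) : ℝ) := by
      have : 0 < max q₀ 1 := by omega
      exact_mod_cast this
    obtain ⟨a1, a2, _⟩ := hq₀ (max q₀ 1) (le_max_left _ _) σ hσ (1 / ((max q₀ 1 : ℕ) : ℝ))
      (by rw [one_div, inv_mul_cancel₀ hq1.ne']) (by rw [one_div, inv_mul_cancel₀ hq1.ne']; norm_num)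
    rw [hr]
    exact ⟨a1, a2⟩
  obtain ⟨hr1, hrL⟩ := hrr
  have hstir : stirExp (nnRate d L) t (fun g => Qb r g - Qv g) ≤ ηD := by
    refine Pool.Agent.Q297.LC.stir_le_of_circuit (by omega) hL3 hK1 hKt ht2K
      (fun g => ?_) ⟨q₀, fun q hq σ hσ δ hδ1 hδ2 => ?_⟩
    · obtain ⟨a1, a2⟩ := Q_diff_bd g r hr1 hrL
      rw [abs_of_nonneg a1]
      exact a2
    · obtain ⟨_, _, a3⟩ := hq₀ q hq σ hσ δ hδ1 hδ2
      rw [hr]
      exact a3
  have hJ : ∀ x y : Fin d → ZMod L, 0 ≤ nnRate d L x y := nn_nonneg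
  have ht0 : 0 < t := by linarith
  have hst : 0 < Real.sqrt t := Real.sqrt_pos.2 ht0
  -- the boxes
  have hN0r : N₀ ≤ r := by
    rw [hr, Nat.le_div_iff_mul_le (by omega), Nat.le_sqrt']
    have h1 : (((N₀ * h) ^ 2 : ℕ) : ℝ) ≤ (K : ℝ) := by
      push_cast
      have h2 : ((N₀ : ℝ) * h) ^ 2 = ((h : ℝ) * N₀) ^ 2 := by ring
      rw [h2]
      have : (0 : ℝ) ≤ ((h : ℝ) * N₀) ^ 2 := sq_nonneg _
      linarith
    exact_mod_cast h1
  have hboxcard : ∀ z : Fin d → ZMod L, N₀ ≤ (box z r).card := by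
    intro z
    rw [Pool.Agent.Q187.LC.Nas.card_box z r hrL]
    exact hN0r.trans (Nat.le_self_pow (by omega) r)
  have hboxNN : ∀ z : Fin d → ZMod L, ∀ x ∈ box z r, ∀ y ∈ box z r,
      NN (nnRate d L) t (swap x y) ≤ δp := by
    intro z x hx y hy
    refine (hdist L hL3 t ht0 x y).trans ?_
    rw [div_le_iff₀ hst]
    have h1 : tdist x y ≤ d * r := by
      unfold tdist
      refine (Finset.sum_le_sum fun i _ => (?_ : _ ≤ r)).trans ?_
      · unfold Q292.LC.box at hx hy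
        rw [Finset.mem_filter] at hx hy
        have hxi := hx.2 i
        have hyi := hy.2 i
        have e1 : (((x i - z i).val : ℤ) - ((y i - z i).val : ℤ) : ℤ) = 
            (((x i - z i).val : ℤ) - ((y i - z i).val : ℤ)) := rfl
        have e2 : ((((x i - z i).val : ℤ) - ((y i - z i).val : ℤ) : ℤ) : ZMod L) = x i - y i := by
          push_cast
          rw [ZMod.natCast_zmod_val, ZMod.natCast_zmod_val]
          ring
        have e3 := Pool.Agent.Q53.LC.natAbs_le_of_cast (x i - y i) _ e2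
        refine e3.trans ?_
        omega
      · simp
    have h2 : (tdist x y : ℝ) ≤ d * r := by exact_mod_cast h1
    have h3 : (r : ℝ) * h ≤ Real.sqrt t := by
      refine Real.le_sqrt_of_sq_le ?_
      have h4 : (r * h) ^ 2 ≤ K := by
        have h5 : r * h ≤ Nat.sqrt K := by rw [hr]; exact Nat.div_mul_le_self _ _
        calc (r * h) ^ 2 ≤ (Nat.sqrt K) ^ 2 := Nat.pow_le_pow_left h5 2
          _ ≤ K := Nat.sqrt_le' K
      have h5 : (((r * h) ^ 2 : ℕ) : ℝ) ≤ K := by exact_mod_cast h4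
      push_cast at h5
      linarith
    have h4 : C * d ≤ h * δp := by rwa [div_le_iff₀ hδp] at hh3
    calc C * (tdist x y : ℝ) ≤ C * (d * r) := mul_le_mul_of_nonneg_left h2 hC.le
      _ = (C * d) * r := by ring
      _ ≤ (h * δp) * r := mul_le_mul_of_nonneg_right h4 (by positivity)
      _ = δp * (r * h) := by ring
      _ ≤ δp * Real.sqrt t := mul_le_mul_of_nonneg_left h3 hδp.le
  have hbox : ∀ z : Fin d → ZMod L,
      |stirExp (nnRate d L) t (fun g => f (fun i => top (bfrac (box z r) g) i)) - pdm f| ≤ η / 4 :=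
    fun z => hpd (Fin d → ZMod L) (nnRate d L) hJ t ht0.le (box z r) (hboxcard z) (hboxNN z)
  -- the torus and the mean over the boxes
  have hN : (0 : ℝ) < (L : ℝ) ^ d := by
    have : (0 : ℝ) < L := by
      have : 0 < L := by omega
      exact_mod_cast this
    positivity
  have hcard : ((Finset.univ : Finset (Fin d → ZMod L)).card : ℝ) = (L : ℝ) ^ d := by
    rw [Finset.card_univ, Fintype.card_fun, ZMod.card, Fintype.card_fin]
    push_cast
    rfl
  have hmem : ∀ (B : Finset (Fin d → ZMod L)) (g : Perm (Fin d → ZMod L)) (i : Fin m),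
      0 ≤ top (bfrac B g) i ∧ top (bfrac B g) i ≤ 1 := fun B g i =>
    ⟨top_nonneg _ (bfrac_nonneg B g) _, top_le_one _ (bfrac_nonneg B g) (bfrac_le_one B g) _⟩
  have hpt : ∀ g : Perm (Fin d → ZMod L), |f (fun i => top (frac g) i) -
      (∑ z, f (fun i => top (bfrac (box z r) g) i)) / (L : ℝ) ^ d| ≤
      η / 4 + c * (Qb r g - Qv g) := by
    intro g
    have h1 := lip_var g r hr1 hrL m F Λ (η / 8) (by positivity) hFL
    rw [← hc] at h1
    have h2 : |f (fun i : Fin m => top (frac g) i) - F (fun i => top (frac g) i)| ≤ η / 16 := by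
      refine hfF _ fun i => ?_
      rw [frac_bfrac]
      exact hmem _ g i
    have h3 : |(∑ z, F (fun i : Fin m => top (bfrac (box z r) g) i)) / (L : ℝ) ^ d -
        (∑ z, f (fun i : Fin m => top (bfrac (box z r) g) i)) / (L : ℝ) ^ d| ≤ η / 16 := by
      rw [← sub_div, ← Finset.sum_sub_distrib, abs_div, abs_of_pos hN, div_le_iff₀ hN]
      refine (Finset.abs_sum_le_sum_abs _ _).trans ((Finset.sum_le_sum fun z _ =>
        (?_ : _ ≤ η / 16)).trans ?_)
      · rw [abs_sub_comm]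
        exact hfF _ fun i => hmem _ g i
      · rw [Finset.sum_const, nsmul_eq_mul, hcard]
        linarith
    rw [abs_le] at h1 h2 h3 ⊢
    constructor <;> linarith [h1.1, h1.2, h2.1, h2.2, h3.1, h3.2]
  have h1 := stir_lin hJ ht0.le (fun g => f (fun i => top (frac g) i))
    (fun g => (∑ z, f (fun i => top (bfrac (box z r) g) i)) / (L : ℝ) ^ d)
    (fun g => c * (Qb r g - Qv g)) (η / 4) hpt
  have h2 : stirExp (nnRate d L) t (fun g => c * (Qb r g - Qv g)) =
      c * stirExp (nnRate d L) t (fun g => Qb r g - Qv g) := by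
    unfold stirExp
    rw [Finset.mul_sum]
    refine Finset.sum_congr rfl fun g _ => ?_
    ring
  rw [stir_avg (nnRate d L) t (fun z g => f (fun i => top (bfrac (box z r) g) i)), h2] at h1
  have h3 : |(∑ z, stirExp (nnRate d L) t (fun g => f (fun i => top (bfrac (box z r) g) i))) /
      (L : ℝ) ^ d - pdm f| ≤ η / 4 := by
    have e1 : pdm f = (∑ _z : Fin d → ZMod L, pdm f) / (L : ℝ) ^ d := by
      rw [Finset.sum_const, nsmul_eq_mul, hcard]
      field_simp
    rw [e1, ← sub_div, ← Finset.sum_sub_distrib, abs_div, abs_of_pos hN, div_le_iff₀ hN]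
    refine (Finset.abs_sum_le_sum_abs _ _).trans ((Finset.sum_le_sum fun z _ => hbox z).trans ?_)
    rw [Finset.sum_const, nsmul_eq_mul, hcard]
    linarith
  have h4 : c * stirExp (nnRate d L) t (fun g => Qb r g - Qv g) ≤ η / 8 := by
    refine (mul_le_mul_of_nonneg_left hstir hc0).trans ?_
    rw [hηD]
    rw [mul_div_assoc', div_le_div_iff₀ (by positivity) (by norm_num)]
    nlinarith
  rw [abs_le] at h1 h3 ⊢
  constructor <;> linarith [h1.1, h1.2, h3.1, h3.2]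

end Run7.h565.LC
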