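import Pool.Agent.Run7.h565.LC.Stm8
import Pool.Agent.Run7.h565.LC.Mid
import Pool.Agent.Y998.CN.Tor

/-!
# CLA: closeness of the fractions of boxes and of the torus
-/

set_option autoImplicit false

namespace Run7.h565.LC

open Finset Equiv Q292.LC
open Pool.Agent.TH268.PD (top frac Cyc cyOf pdm)
open Pool.Agent.Y998.LP (bfrac NN tdist)
open Pool.Agent.Y998.ST (stirExp stirLaw nnRate law_nonneg nn_nonneg)

/-- indicator of `SameCycle` -/
noncomputable def sc {V : Type} (g : Perm V) (x y : V) : ℝ :=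
  open Classical in if g.SameCycle x y then 1 else 0

theorem prod_cyc {V : Type} [Fintype V] (B B' : Finset V) (g : Perm V) :
    ∑ γ : Cyc g, bfrac B g γ * bfrac B' g γ =
      (∑ x ∈ B, ∑ y ∈ B', sc g x y) / ((B.card : ℝ) * B'.card) := by
  classical
  have h0 : ∀ γ : Cyc g, bfrac B g γ * bfrac B' g γ =
      (∑ x ∈ B, ∑ y ∈ B', (if cyOf g x = γ then (1 : ℝ) else 0) *
        (if cyOf g y = γ then 1 else 0)) / ((B.card : ℝ) * B'.card) := by
    intro γ
    rw [bfrac_sum, bfrac_sum, div_mul_div_comm, Finset.sum_mul_sum]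
  rw [Finset.sum_congr rfl fun γ _ => h0 γ, ← Finset.sum_div]
  congr 1
  rw [Finset.sum_comm]
  refine Finset.sum_congr rfl fun x _ => ?_
  rw [Finset.sum_comm]
  refine Finset.sum_congr rfl fun y _ => ?_
  have h2 : ∀ γ : Cyc g, (if cyOf g x = γ then (1 : ℝ) else 0) * (if cyOf g y = γ then 1 else 0) =
      if cyOf g x = γ then (if cyOf g y = cyOf g x then 1 else 0) else 0 := by
    intro γ
    by_cases hx : cyOf g x = γ
    · subst hx; simp
    · simp [hx]
  rw [Finset.sum_congr rfl fun γ _ => h2 γ, Finset.sum_ite_eq, if_pos (Finset.mem_univ _)]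
  unfold sc
  by_cases hxy : g.SameCycle x y
  · rw [if_pos hxy, if_pos ((cyOf_eq g y x).2 hxy.symm)]
  · rw [if_neg hxy, if_neg (fun h => hxy ((cyOf_eq g y x).1 h).symm)]

variable {d L : ℕ} [NeZero L]

/-- square distance of the fractions -/
noncomputable def Sz (r : ℕ) (z : Fin d → ZMod L) (g : Perm (Fin d → ZMod L)) : ℝ :=
  ∑ γ : Cyc g, (bfrac (box z r) g γ - frac g γ) ^ 2

theorem Sz_eq (r : ℕ) (z : Fin d → ZMod L) (g : Perm (Fin d → ZMod L)) :
    Sz r z g = (∑ x ∈ box z r, ∑ y ∈ box z r, sc g x y) /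
        (((box z r).card : ℝ) * (box z r).card) -
      2 * ((∑ x ∈ box z r, ∑ y, sc g x y) /
        (((box z r).card : ℝ) * (Finset.univ : Finset (Fin d → ZMod L)).card)) +
      (∑ x, ∑ y, sc g x y) / (((Finset.univ : Finset (Fin d → ZMod L)).card : ℝ) *
        (Finset.univ : Finset (Fin d → ZMod L)).card) := by
  unfold Sz
  rw [← prod_cyc, ← prod_cyc, ← prod_cyc, Finset.mul_sum, ← Finset.sum_sub_distrib,
    ← Finset.sum_add_distrib]
  refine Finset.sum_congr rfl fun γ _ => ?_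
  rw [← frac_bfrac]
  ring

/-- translation by `v` -/
def tr (v : Fin d → ZMod L) : Perm (Fin d → ZMod L) := Equiv.addRight v

theorem tr_apply (v x : Fin d → ZMod L) : tr v x = x + v := rfl

theorem sc_conj (v : Fin d → ZMod L) (g : Perm (Fin d → ZMod L)) (x y : Fin d → ZMod L) :
    sc (tr v * g * (tr v)⁻¹) (x + v) (y + v) = sc g x y := by
  have h : (tr v * g * (tr v)⁻¹).SameCycle (x + v) (y + v) ↔ g.SameCycle x y := by
    rw [Perm.sameCycle_conj]
    have e1 : ∀ u : Fin d → ZMod L, (tr v)⁻¹ (u + v) = u := by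
      intro u
      rw [← tr_apply]
      exact Equiv.symm_apply_apply _ _
    rw [e1, e1]
  unfold sc
  by_cases hg : g.SameCycle x y
  · rw [if_pos hg, if_pos (h.2 hg)]
  · rw [if_neg hg, if_neg (fun h' => hg (h.1 h'))]

theorem sum_box_tr (v z : Fin d → ZMod L) (r : ℕ) (F : (Fin d → ZMod L) → ℝ) :
    ∑ x ∈ box (z + v) r, F x = ∑ x ∈ box z r, F (x + v) := by
  refine Finset.sum_bij' (fun x _ => x - v) (fun x _ => x + v) ?_ ?_ ?_ ?_ ?_
  · intro x hx
    unfold Q292.LC.box at hx ⊢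
    rw [Finset.mem_filter] at hx ⊢
    refine ⟨Finset.mem_univ _, fun i => ?_⟩
    have := hx.2 i
    rw [Pi.add_apply] at this
    rw [Pi.sub_apply]
    have e : x i - v i - z i = x i - (z i + v i) := by ring
    rw [e]
    exact this
  · intro x hx
    unfold Q292.LC.box at hx ⊢
    rw [Finset.mem_filter] at hx ⊢
    refine ⟨Finset.mem_univ _, fun i => ?_⟩
    have := hx.2 i
    rw [Pi.add_apply, Pi.add_apply]
    have e : x i + v i - (z i + v i) = x i - z i := by ring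
    rw [e]
    exact this
  · intro x _
    exact sub_add_cancel x v
  · intro x _
    exact add_sub_cancel_right x v
  · intro x _
    rw [sub_add_cancel]

theorem Sz_conj (r : ℕ) (v z : Fin d → ZMod L) (g : Perm (Fin d → ZMod L)) (hrL : r ≤ L) :
    Sz r (z + v) (tr v * g * (tr v)⁻¹) = Sz r z g := by
  have hu : ∀ F : (Fin d → ZMod L) → ℝ, ∑ x, F x = ∑ x, F (x + v) := fun F =>
    (Equiv.sum_comp (Equiv.addRight v) F).symm
  rw [Sz_eq, Sz_eq]
  have e1 : ∑ x ∈ box (z + v) r, ∑ y ∈ box (z + v) r, sc (tr v * g * (tr v)⁻¹) x y =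
      ∑ x ∈ box z r, ∑ y ∈ box z r, sc g x y := by
    rw [sum_box_tr]
    refine Finset.sum_congr rfl fun x _ => ?_
    rw [sum_box_tr]
    exact Finset.sum_congr rfl fun y _ => sc_conj v g x y
  have e2 : ∑ x ∈ box (z + v) r, ∑ y, sc (tr v * g * (tr v)⁻¹) x y =
      ∑ x ∈ box z r, ∑ y, sc g x y := by
    rw [sum_box_tr]
    refine Finset.sum_congr rfl fun x _ => ?_
    rw [hu]
    exact Finset.sum_congr rfl fun y _ => sc_conj v g x y
  have e3 : ∑ x, ∑ y, sc (tr v * g * (tr v)⁻¹) x y = ∑ x, ∑ y, sc g x y := by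
    rw [hu]
    refine Finset.sum_congr rfl fun x _ => ?_
    rw [hu]
    exact Finset.sum_congr rfl fun y _ => sc_conj v g x y
  rw [e1, e2, e3, Pool.Agent.Q187.LC.Nas.card_box (z + v) r hrL,
    Pool.Agent.Q187.LC.Nas.card_box z r hrL]

theorem stir_Sz (t : ℝ) (r : ℕ) (hrL : r ≤ L) (v z : Fin d → ZMod L) :
    stirExp (nnRate d L) t (fun g => Sz r (z + v) g) =
      stirExp (nnRate d L) t (fun g => Sz r z g) := by
  unfold stirExp
  have h1 : ∑ g : Perm (Fin d → ZMod L), stirLaw (nnRate d L) t g * Sz r (z + v) g =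
      ∑ g : Perm (Fin d → ZMod L), stirLaw (nnRate d L) t (tr v * g * (tr v)⁻¹) *
        Sz r (z + v) (tr v * g * (tr v)⁻¹) :=
    (Equiv.sum_comp (MulAut.conj (tr v)).toEquiv
      (fun g => stirLaw (nnRate d L) t g * Sz r (z + v) g)).symm
  rw [h1]
  refine Finset.sum_congr rfl fun g _ => ?_
  rw [Sz_conj r v z g hrL, Pool.Agent.Y998.CN.law_conj (tr v)
    (fun x y => Pool.Agent.Y998.CN.nn_trans x y v) t g]

theorem stir_Sz_mean (t : ℝ) (r : ℕ) (hr : 1 ≤ r) (hrL : r ≤ L) (z : Fin d → ZMod L) :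
    stirExp (nnRate d L) t (fun g => Sz r z g) =
      stirExp (nnRate d L) t (fun g => Qb r g - Qv g) := by
  have hL0 : 0 < L := Nat.pos_of_ne_zero (NeZero.ne L)
  have hN : (0 : ℝ) < (L : ℝ) ^ d := by positivity
  have h1 : stirExp (nnRate d L) t (fun g => Qb r g - Qv g) =
      stirExp (nnRate d L) t (fun g => (∑ z, Sz r z g) / (L : ℝ) ^ d) := by
    unfold stirExp
    refine Finset.sum_congr rfl fun g _ => ?_
    have e := box_var g r hr hrL
    change stirLaw (nnRate d L) t g * (Qb r g - Qv g) =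
      stirLaw (nnRate d L) t g * ((∑ z, Sz r z g) / (L : ℝ) ^ d)
    rw [← e]
    rfl
  rw [h1, stir_avg (nnRate d L) t (fun z g => Sz r z g)]
  have h2 : ∀ z' : Fin d → ZMod L, stirExp (nnRate d L) t (fun g => Sz r z' g) =
      stirExp (nnRate d L) t (fun g => Sz r z g) := by
    intro z'
    have := stir_Sz t r hrL (z' - z) z
    rwa [add_sub_cancel] at this
  rw [Finset.sum_congr rfl fun z' _ => h2 z', Finset.sum_const, nsmul_eq_mul, Finset.card_univ,
    Fintype.card_fun, ZMod.card, Fintype.card_fin]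
  push_cast
  field_simp

theorem Dm_le (r : ℕ) (z : Fin d → ZMod L) (g : Perm (Fin d → ZMod L)) (η : ℝ) (hη : 0 < η) :
    Dm r z g ≤ η / 2 + 1 / (2 * η) * Sz r z g := by
  have hS0 : 0 ≤ Sz r z g := by unfold Sz; positivity
  have h1 : Dm r z g ≤ Real.sqrt (Sz r z g) := by
    unfold Dm
    refine Real.iSup_le (fun γ => ?_) (Real.sqrt_nonneg _)
    refine Real.abs_le_sqrt ?_
    unfold Sz
    exact Finset.single_le_sum (f := fun γ : Cyc g => (bfrac (box z r) g γ - frac g γ) ^ 2)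
      (fun i _ => sq_nonneg _) (Finset.mem_univ γ)
  have h4 : Sz r z g = Real.sqrt (Sz r z g) ^ 2 := (Real.sq_sqrt hS0).symm
  have h5 : 0 ≤ (η - Real.sqrt (Sz r z g)) ^ 2 / (2 * η) := by positivity
  have h6 : (η - Real.sqrt (Sz r z g)) ^ 2 / (2 * η) =
      η / 2 - Real.sqrt (Sz r z g) + 1 / (2 * η) * Real.sqrt (Sz r z g) ^ 2 := by
    field_simp
    ring
  rw [h6, ← h4] at h5
  linarith

theorem stir_mono {V : Type} [Fintype V] [DecidableEq V] {J : V → V → ℝ} (hJ : ∀ x y, 0 ≤ J x y)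
    {t : ℝ} (ht : 0 ≤ t) (F G : Perm V → ℝ) (h : ∀ g, F g ≤ G g) :
    stirExp J t F ≤ stirExp J t G := by
  unfold stirExp
  exact Finset.sum_le_sum fun g _ => mul_le_mul_of_nonneg_left (h g) (law_nonneg hJ ht g)

theorem stir_aff {V : Type} [Fintype V] [DecidableEq V] (J : V → V → ℝ) (t : ℝ)
    (a c : ℝ) (F : Perm V → ℝ) :
    stirExp J t (fun g => a + c * F g) = a + c * stirExp J t F := by
  unfold stirExp
  simp only [mul_add, Finset.sum_add_distrib, ← Finset.sum_mul]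
  rw [Pool.Agent.Y998.CN.law_sum, one_mul, Finset.mul_sum]
  congr 1
  refine Finset.sum_congr rfl fun g _ => ?_
  ring

theorem cla (hDEV : S_DEV2) : S_CLA := by
  classical
  intro d hd
  obtain ⟨mD, h₀, hDEV⟩ := hDEV d hd
  refine ⟨mD + 1, ?_⟩
  intro h₂ η hη
  obtain ⟨h, hh1, hh2, hh3⟩ : ∃ h : ℕ, h₀ ≤ h ∧ 1 ≤ h ∧ h₂ ≤ h :=
    ⟨max (max h₀ 1) h₂, (le_max_left _ _).trans (le_max_left _ _),
      (le_max_right _ _).trans (le_max_left _ _), le_max_right _ _⟩
  obtain ⟨L₁, hD⟩ := hDEV h hh1 (η ^ 2) (by positivity)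
  obtain ⟨L₂, hL₂⟩ : ∃ L₂ : ℕ, ∀ L : ℕ, L₂ ≤ L → (2 * ((h * h₂) ^ 2 + 2 : ℝ)) ≤ Real.log L := by
    obtain ⟨n, hn⟩ := exists_nat_ge (Real.exp (2 * ((h * h₂) ^ 2 + 2 : ℝ)))
    refine ⟨n, fun L hL => ?_⟩
    rw [Real.le_log_iff_exp_le]
    · exact hn.trans (by exact_mod_cast hL)
    · have h1 : (n : ℝ) ≤ L := by exact_mod_cast hL
      exact lt_of_lt_of_le (Real.exp_pos _) (hn.trans h1)
  refine ⟨max (max L₁ L₂) 3, ?_⟩
  intro L _ hL t ht htL
  have hL1 : L₁ ≤ L := (le_max_left _ _).trans ((le_max_left _ _).trans hL)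
  have hL2 : L₂ ≤ L := (le_max_right _ _).trans ((le_max_left _ _).trans hL)
  have hL3 : 3 ≤ L := (le_max_right _ _).trans hL
  have hlog := hL₂ L hL2
  have hlog4 : 4 ≤ Real.log L := by
    have : (0 : ℝ) ≤ ((h : ℝ) * h₂) ^ 2 := sq_nonneg _
    linarith
  have hlogm : (1 : ℝ) ≤ (Real.log L) ^ mD := one_le_pow₀ (by linarith)
  have ht1 : Real.log L * (Real.log L) ^ mD ≤ t := by rwa [pow_succ'] at ht
  have htlog : Real.log L ≤ t := by nlinarith
  have ht4 : 4 ≤ t := by linarith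
  obtain ⟨K, hK⟩ : ∃ K : ℕ, K = ⌊t⌋₊ := ⟨_, rfl⟩
  have hKt : (K : ℝ) ≤ t := by rw [hK]; exact Nat.floor_le (by linarith)
  have htK : t < K + 1 := by rw [hK]; exact Nat.lt_floor_add_one t
  have hK1 : 1 ≤ K := by
    have : (3 : ℝ) < K := by linarith
    have : 3 < K := by exact_mod_cast this
    omega
  have hK1' : (1 : ℝ) ≤ K := by exact_mod_cast hK1
  have ht2K : t ≤ 2 * K := by linarith
  have hKlog : (Real.log L) ^ mD ≤ K := by
    have h1 : 4 * (Real.log L) ^ mD ≤ t := by nlinarith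
    linarith
  have hKL : K ≤ L ^ 2 := by
    have h1 : (K : ℝ) ≤ (L : ℝ) ^ 2 := hKt.trans htL
    exact_mod_cast h1
  obtain ⟨q₀, hq₀⟩ := hD L K hL1 hKlog hKL
  obtain ⟨r, hr⟩ : ∃ r : ℕ, r = Nat.sqrt K / h := ⟨_, rfl⟩
  have hrr : 1 ≤ r ∧ r ≤ L := by
    obtain ⟨σ, hσ⟩ := Pool.Agent.Q297.LC.exists_Per d L (by omega)
    have hq1 : (0 : ℝ) < ((max q₀ 1 : ℕ) : ℝ) := by
      have : 0 < max q₀ 1 := by omega
      exact_mod_cast this
    obtain ⟨a1, a2, _⟩ := hq₀ (max q₀ 1) (le_max_left _ _) σ hσ (1 / ((max q₀ 1 : ℕ) : ℝ))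
      (by rw [one_div, inv_mul_cancel₀ hq1.ne']) (by rw [one_div, inv_mul_cancel₀ hq1.ne']; norm_num)
    rw [hr]
    exact ⟨a1, a2⟩
  obtain ⟨hr1, hrL⟩ := hrr
  have hstir : stirExp (nnRate d L) t (fun g => Qb r g - Qv g) ≤ η ^ 2 := by
    refine Pool.Agent.Q297.LC.stir_le_of_circuit (by omega) hL3 hK1 hKt ht2K
      (fun g => ?_) ⟨q₀, fun q hq σ hσ δ hδ1 hδ2 => ?_⟩
    · obtain ⟨a1, a2⟩ := Q_diff_bd g r hr1 hrL
      rw [abs_of_nonneg a1]
      exact a2
    · obtain ⟨_, _, a3⟩ := hq₀ q hq σ hσ δ hδ1 hδ2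
      rw [hr]
      exact a3
  have hJ : ∀ x y : Fin d → ZMod L, 0 ≤ nnRate d L x y := nn_nonneg
  have ht0 : 0 < t := by linarith
  refine ⟨r, ?_, hrL, ?_, fun z => ?_⟩
  · rw [hr, Nat.le_div_iff_mul_le (by omega), Nat.le_sqrt']
    have h1 : (((h₂ * h) ^ 2 : ℕ) : ℝ) ≤ (K : ℝ) := by
      push_cast
      have h2 : ((h₂ : ℝ) * h) ^ 2 = ((h : ℝ) * h₂) ^ 2 := by ring
      rw [h2]
      have : (0 : ℝ) ≤ ((h : ℝ) * h₂) ^ 2 := sq_nonneg _
      linarith
    exact_mod_cast h1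
  · refine Real.le_sqrt_of_sq_le ?_
    have h4 : (r * h₂) ^ 2 ≤ K := by
      have h5 : r * h₂ ≤ Nat.sqrt K := by
        refine (Nat.mul_le_mul_left r hh3).trans ?_
        rw [hr]
        exact Nat.div_mul_le_self _ _
      calc (r * h₂) ^ 2 ≤ (Nat.sqrt K) ^ 2 := Nat.pow_le_pow_left h5 2
        _ ≤ K := Nat.sqrt_le' K
    have h5 : (((r * h₂) ^ 2 : ℕ) : ℝ) ≤ K := by exact_mod_cast h4
    push_cast at h5
    linarith
  · refine (stir_mono hJ ht0.le _ _ (fun g => Dm_le r z g η hη)).trans ?_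
    rw [stir_aff, stir_Sz_mean t r hr1 hrL z]
    have h1 : 1 / (2 * η) * stirExp (nnRate d L) t (fun g => Qb r g - Qv g) ≤
        1 / (2 * η) * η ^ 2 := mul_le_mul_of_nonneg_left hstir (by positivity)
    have h2 : 1 / (2 * η) * η ^ 2 = η / 2 := by
      field_simp
    linarith

end Run7.h565.LC
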