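import Pool.Agent.Q292.LC.Stm7
import Pool.Agent.Y998.LQ.Final
import Pool.Agent.TH268.PD.Unif
import Pool.Agent.Run7.h565.LC.Box

/-!
# Project LC, statements 8: any points, any sets, all times `t ≥ (log L) ^ m`
-/

set_option autoImplicit false

namespace Run7.h565.LC

open Finset Equiv Q292.LC
open Pool.Agent.TH268.PD (top frac Cyc cyOf pdm)
open Pool.Agent.Y998.LP (bfrac NN tdist)
open Pool.Agent.Y998.ST (stirExp stirLaw nnRate)

/-- which of the points `b i` are in the same cycle -/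
def rel {V : Type} {k : ℕ} (g : Perm V) (b : Fin k → V) : Fin k → Fin k → Prop :=
  fun i j => g.SameCycle (b i) (b j)

/-- largest difference of the fraction of a box and the fraction of the torus in a cycle -/
noncomputable def Dm {d L : ℕ} [NeZero L] (r : ℕ) (z : Fin d → ZMod L)
    (g : Perm (Fin d → ZMod L)) : ℝ := ⨆ γ : Cyc g, |bfrac (box z r) g γ - frac g γ|

/-- mean of `Ψ` for a uniform permutation of `k` points -/
noncomputable def uni (k : ℕ) (Ψ : (Fin k → Fin k → Prop) → ℝ) : ℝ :=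
  (∑ π : Perm (Fin k), Ψ (fun i j => π.SameCycle i j)) / (k.factorial : ℝ)

/-- DEV2: `S_DEV` for `K ≤ L ^ 2`. -/
def S_DEV2 : Prop := ∀ d : ℕ, 3 ≤ d → ∃ m h₀ : ℕ, ∀ h : ℕ, h₀ ≤ h → ∀ η : ℝ, 0 < η → ∃ L₀ : ℕ,
  ∀ (L K : ℕ) [NeZero L], L₀ ≤ L → (Real.log L) ^ m ≤ K → K ≤ L ^ 2 →
  ∃ q₀ : ℕ, ∀ q ≥ q₀, ∀ σ : ℕ → (Fin d → ZMod L) × Fin d, Per σ → ∀ δ : ℝ,
  1 ≤ δ * q → δ * q ≤ 2 →
  1 ≤ Nat.sqrt K / h ∧ Nat.sqrt K / h ≤ L ∧
  EE (K * (q * ms d L)) δ (fun ω => Qb (Nat.sqrt K / h) (gp (ed ∘ σ) ω (K * (q * ms d L))) -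
    Qv (gp (ed ∘ σ) ω (K * (q * ms d L)))) ≤ η

/-- CLA: closeness of the fractions, times up to `L ^ 2`.
Proof. Like `pd_mid` in Mid.lean: `h' = max h h₀ 1`, `K = ⌊t⌋`, `r = Nat.sqrt K / h'`; by DEV2 and
`stir_le_of_circuit`, `E (Qb r g - Qv g) ≤ η ^ 2`. With `S_z g = ∑ γ, (bfrac (box z r) g γ - frac g γ)²`,
`Qb - Qv` is the mean of `S_z` over `z` (`box_var`), and `E S_z` does not depend on `z` (translations:
`Pool.Agent.Y998.CN.law_conj`, `Pool.Agent.Y998.CN.nn_trans`; the translate of `box z r` is `box z' r`).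
So `E S_z ≤ η ^ 2` and `Dm r z g ≤ √(S_z g) ≤ η / 2 + S_z g / (2 η)`. For `h ≤ r` take `L₀` so large that
`K ≥ (log L)^m` gives `Nat.sqrt K ≥ h' * h`. If `t < 1`.. does not happen for `L ≥ L₀`. -/
def S_CLA : Prop := ∀ d : ℕ, 3 ≤ d → ∃ m₀ : ℕ, ∀ (h : ℕ) (η : ℝ), 0 < η → ∃ L₀ : ℕ,
  ∀ (L : ℕ) [NeZero L], L₀ ≤ L → ∀ t : ℝ, (Real.log L) ^ m₀ ≤ t → t ≤ (L : ℝ) ^ 2 →
  ∃ r : ℕ, h ≤ r ∧ r ≤ L ∧ (r : ℝ) * h ≤ Real.sqrt t ∧
  ∀ z : Fin d → ZMod L, stirExp (nnRate d L) t (fun g => Dm r z g) ≤ η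

/-- CLB: the same for `t ≥ L ^ 2`.
Proof. `h ≥ 1` wlog. If `t ≥ (h L)²` take `r = L`: `box z L = univ`, `bfrac univ = frac` (`frac_bfrac`),
`Dm = 0`. Otherwise `r = L / h` (natural division), so `r h ≤ L ≤ √t`, `r ≥ h` for large `L`. Let
`Q = box z r`, `|Q| = r^d`. With `u z' = 1 - L^d / (K r^d) * vis Q K g z'` (Pool.Agent.Y661.PD.vis):
`∑_{z' ∈ γ} vis Q K g z' = K |Q ∩ γ|` (for each of the `K` powers `g^(i+1)` is a bijection of the cycle
`γ`), so `frac γ - bfrac Q γ = L^(-d) ∑_{z' ∈ γ} u z' ≤ L^(-d) ∑_{z'} max 0 (u z')`; and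
`bfrac γ - frac γ = ∑_{γ' ≠ γ} (frac γ' - bfrac γ')` has the same bound. So `Dm ≤ L^(-d) ∑ max 0 (u z')`
and `E Dm ≤ C er d L K t (r^d)` by Pool.Agent.Y661.PD.vis_all (AllA.lean). `er` is small: choose `K`
constant and large (`L^d/(K r^d) ≤ (2h)^d/K`, `L/√(tK) ≤ K^(-1/2)`, `L^d t^(-d/2)/K ≤ 1/K`), then
`K t^(1-d/2) ≤ K/L` and `K² t/L^d ≤ K² h²/L` for large `L` (`L² ≤ t ≤ h² L²`, `d ≥ 3`). -/
def S_CLB : Prop := ∀ d : ℕ, 3 ≤ d → ∀ (h : ℕ) (η : ℝ), 0 < η → ∃ L₀ : ℕ,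
  ∀ (L : ℕ) [NeZero L], L₀ ≤ L → ∀ t : ℝ, (L : ℝ) ^ 2 ≤ t →
  ∃ r : ℕ, h ≤ r ∧ r ≤ L ∧ (r : ℝ) * h ≤ Real.sqrt t ∧
  ∀ z : Fin d → ZMod L, stirExp (nnRate d L) t (fun g => Dm r z g) ≤ η

/-- SWP: moving one point.
Proof. `s = swap (b i) y`. `s ∘ b = Function.update b i y` (`b` is injective, `y ∉ range b`), so
`rel (s * g * s⁻¹) (s ∘ b) = rel g b`, i.e. with `H g = Ψ (rel g (update b i y))`: `Ψ (rel g b) = H (s g s)`.
`∑_g |law (s g s) - law g| ≤ ∑ |law (s (g s)) - law (g s)| + ∑ |law (g s) - law g| = 2 NN s`, the last sum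
by `Pool.Agent.Y998.LP.law_inv` (`law g⁻¹ = law g`). -/
def S_SWP : Prop := ∀ (V : Type) [Fintype V] [DecidableEq V] (J : V → V → ℝ),
  (∀ x y, 0 ≤ J x y) → ∀ t : ℝ, 0 ≤ t → ∀ (k : ℕ) (b : Fin k → V), Function.Injective b →
  ∀ (i : Fin k) (y : V), y ∉ Set.range b → ∀ (Ψ : (Fin k → Fin k → Prop) → ℝ) (M : ℝ),
  (∀ R, |Ψ R| ≤ M) →
  |stirExp J t (fun g => Ψ (rel g b)) - stirExp J t (fun g => Ψ (rel g (Function.update b i y)))| ≤
    2 * M * NN J t (swap (b i) y)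

/-- MIX: from `k` points to random points of sets which contain them.
Proof. Call `b' ∈ ∏ Q i` good if `b' i ≠ b j` and `b' i ≠ b' j` for all `i ≠ j`. The other ones are a
fraction of at most `∑_i ∑_{j ≠ i} (1/|Q i| + 1/|Q i|) ≤ 2 k² / ρ`; for these the difference is at most
`2 M`. For a good `b'` replace `b i` by `b' i` for `i = 0, 1, ...` one after the other (if `b' i = b i`
there is nothing to do, otherwise `b' i` is not in the range of the current sequence, which stays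
injective): each step costs at most `2 M θ` by SWP. -/
def S_MIX : Prop := ∀ (V : Type) [Fintype V] [DecidableEq V] (J : V → V → ℝ),
  (∀ x y, 0 ≤ J x y) → ∀ t : ℝ, 0 ≤ t → ∀ (k : ℕ) (b : Fin k → V), Function.Injective b →
  ∀ (Q : Fin k → Finset V) (ρ : ℕ) (θ : ℝ), 0 < ρ → (∀ i, ρ ≤ (Q i).card) → 0 ≤ θ →
  (∀ i, ∀ y ∈ Q i, NN J t (swap (b i) y) ≤ θ) →
  ∀ (Ψ : (Fin k → Fin k → Prop) → ℝ) (M : ℝ), (∀ R, |Ψ R| ≤ M) →
  |stirExp J t (fun g => Ψ (rel g b)) -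
    (∑ b' ∈ Fintype.piFinset Q, stirExp J t (fun g => Ψ (rel g b'))) / ∏ i, ((Q i).card : ℝ)| ≤
    2 * M * k * θ + 4 * M * (k : ℝ) ^ 2 / ρ

/-- CPR: random points of sets and random points of the whole space, deterministic.
Proof. Replace the sets one after the other (hybrid argument): it is enough that for every `i` and
every `b'` (the other points fixed) the mean of `F y = Ψ (rel g (update b' i y))` over `y ∈ Q i` and over
all `y` differ by at most `2 M k D i`. `F y` depends only on the cycle of `y`, and it is the same value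
`F₀` for all `y` which are in none of the cycles of the points `b' j`, `j ≠ i`. So
`mean_{Q} F - mean_V F = ∑_{γ ∈ Γ} (F_γ - F₀) (bfrac Q g γ - frac g γ)`, `Γ` the set of these cycles
(at most `k - 1`; if all cycles are in `Γ` take `F₀ = 0`, note that both means are means). -/
def S_CPR : Prop := ∀ (V : Type) [Fintype V] [DecidableEq V] [Nonempty V] (g : Perm V) (k : ℕ)
  (Q : Fin k → Finset V) (D : Fin k → ℝ), (∀ i, (Q i).Nonempty) →
  (∀ i (γ : Cyc g), |bfrac (Q i) g γ - frac g γ| ≤ D i) →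
  ∀ (Ψ : (Fin k → Fin k → Prop) → ℝ) (M : ℝ), (∀ R, |Ψ R| ≤ M) →
  |(∑ b' ∈ Fintype.piFinset Q, Ψ (rel g b')) / ∏ i, ((Q i).card : ℝ) -
    (∑ b' : Fin k → V, Ψ (rel g b')) / (Fintype.card V : ℝ) ^ k| ≤ 2 * M * k * ∑ i, D i

/-- LOU: random points of a set on which the law is nearly invariant under transpositions.
Proof. For injective `b'` with values in `Q`: `|E Ψ (rel g b') - uni k Ψ| ≤ k M θ` by
`Pool.Agent.Y998.LQ.ind_mean` with `G π = Ψ (fun i j => π.SameCycle i j)` and `ret_spec` (see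
`two_points` in Results/MP_b817cf_pr/LocalPoissonDirichlet.lean, `ret_spec ... .2.2.2`). The fraction of
the non injective `b'` is at most `k² / |Q|`. -/
def S_LOU : Prop := ∀ (V : Type) [Fintype V] [DecidableEq V] (J : V → V → ℝ),
  (∀ x y, 0 ≤ J x y) → ∀ t : ℝ, 0 ≤ t → ∀ (k : ℕ) (Q : Finset V) (θ : ℝ), 0 < Q.card → 0 ≤ θ →
  (∀ x ∈ Q, ∀ y ∈ Q, NN J t (swap x y) ≤ θ) →
  ∀ (Ψ : (Fin k → Fin k → Prop) → ℝ) (M : ℝ), (∀ R, |Ψ R| ≤ M) →
  |(∑ b' ∈ Fintype.piFinset (fun _ : Fin k => Q), stirExp J t (fun g => Ψ (rel g b'))) /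
    (Q.card : ℝ) ^ k - uni k Ψ| ≤ k * M * θ + 2 * M * (k : ℝ) ^ 2 / Q.card

/-- KPT: `k` points anywhere on the torus (final, part 1).
Proof. `t_dist`: `NN (swap x y) ≤ C tdist x y / √t ≤ C d / h` for `x, y` in a box of side `r`. MIX with
`Q i = box (b i) r` (it contains `b i`), CPR with `D i = Dm r (b i) g`; then CPR backwards with
`Q i = box 0 r` and LOU. Total error `≤ 2 k C d / h + 4 k² / r + 2 k² η' + 2 k² η' + k C d / h + 2 k² / r`. -/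
def S_KPT : Prop := ∀ d : ℕ, 3 ≤ d → ∃ m₀ : ℕ, ∀ (k : ℕ) (η : ℝ), 0 < η → ∃ L₀ : ℕ,
  ∀ (L : ℕ) [NeZero L], L₀ ≤ L → ∀ t : ℝ, (Real.log L) ^ m₀ ≤ t →
  ∀ b : Fin k → Fin d → ZMod L, Function.Injective b →
  ∀ Ψ : (Fin k → Fin k → Prop) → ℝ, (∀ R, |Ψ R| ≤ 1) →
  |stirExp (nnRate d L) t (fun g => Ψ (rel g b)) - uni k Ψ| ≤ η

/-- SET: from `k` points to sets (general space).
Proof. As `Pool.Agent.Y998.LQ.pd_gen` (read its proof): `lip_approx`, then `S_SAMP` (proved, see the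
proof of `pd_gen` for its name) with the `ret` of `ret_spec`; the mean of
`f (fun i => top (frac (ret k b g)) i)` for injective `b` is `uni k Ψ` up to `η'` by the hypothesis, where
`Ψ R` is `f (top (frac π))` for any `π` with `R = rel π id` (and `0` if there is none; `top (frac π)`
depends only on the relation `π.SameCycle`, use `Pool.Agent.TH268.PD.top_ret` with `b = id`); `uni k Ψ` is
`um k f`, and `um k f → pdm f` as in `pd_gen`. -/
def S_SET : Prop := ∀ (m : ℕ) (f : (Fin m → ℝ) → ℝ), Continuous f → ∀ C : ℝ, (∀ u, |f u| ≤ C) →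
  ∀ ε : ℝ, 0 < ε → ∃ (k N₀ : ℕ) (η : ℝ), 0 < η ∧ 0 < N₀ ∧
  ∀ (V : Type) [Fintype V] [DecidableEq V] (J : V → V → ℝ), (∀ x y, 0 ≤ J x y) → ∀ t : ℝ, 0 ≤ t →
  ∀ B : Finset V, N₀ ≤ B.card →
  (∀ b : Fin k → V, Function.Injective b → (∀ i, b i ∈ B) →
    ∀ Ψ : (Fin k → Fin k → Prop) → ℝ, (∀ R, |Ψ R| ≤ 1) →
    |stirExp J t (fun g => Ψ (rel g b)) - uni k Ψ| ≤ η) →
  |stirExp J t (fun g => f (fun i => top (bfrac B g) i)) - pdm f| ≤ ε

/-- UNI: the length of the cycle of a given point is uniform (for the problem on macroscopic cycles).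
Proof. `stirExp` of `1[|cyc g x| ≤ u N]`, `N = |V|`: sample `k` points. For `k` points `b` of `V` with
`b 0 = x` let `R = rel g b` and `F(R) =` (number of `j` with `R 0 j`) `/ k`. For fixed `g` and random
`b 1, ..., b (k-1)` (all of `V`), `F` has mean `≈ |cyc g x| / N` and variance `≤ 1/k`
(Chebyshev), up to `1/k`. Non injective `b`: a fraction `≤ k²/N`. For a uniform permutation the size
of the cycle of `0` is uniform on `{1, ..., k}`. So
`P(|cyc g x| ≤ u N) ≤ P(F ≤ u + e) + 1/(k e²)-like error ≤ u + e + 2/k + η + ...` and the same from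
below. -/
def S_UNI : Prop := ∀ ε : ℝ, 0 < ε → ∃ (k N₀ : ℕ) (η : ℝ), 0 < η ∧ 0 < N₀ ∧
  ∀ (V : Type) [Fintype V] [DecidableEq V] (J : V → V → ℝ), (∀ x y, 0 ≤ J x y) → ∀ t : ℝ, 0 ≤ t →
  N₀ ≤ Fintype.card V →
  (∀ b : Fin k → V, Function.Injective b →
    ∀ Ψ : (Fin k → Fin k → Prop) → ℝ, (∀ R, |Ψ R| ≤ 1) →
    |stirExp J t (fun g => Ψ (rel g b)) - uni k Ψ| ≤ η) →
  ∀ (x : V) (u : ℝ), 0 ≤ u → u ≤ 1 →
  |stirExp J t (fun g => if ((cyc g x).card : ℝ) ≤ u * Fintype.card V then 1 else 0) - u| ≤ ε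

end Run7.h565.LC
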