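import Pool.Agent.Q292.LC.Stm7
import Pool.Agent.Q68.LC.Bas2
import Pool.Agent.Q68.LC.Grn

/-!
# ENG: resolvent and energy
-/

set_option autoImplicit false

namespace Run7.h565.LC

open Finset Equiv Matrix Q292.LC

theorem eng : S_ENG := by
  intro V _ _ e ω A n δ w Λ φ h0 h1 hw hw1 hΛ hA hf
  classical
  rcases isEmpty_or_nonempty V with hV | ⟨⟨x₀⟩⟩
  · have : φ ⬝ᵥ ((1 - w • (dg (univ \ A) * TT e ω A δ n))⁻¹ *ᵥ φ) = 0 := by
      unfold dotProduct
      exact Finset.sum_of_isEmpty _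
    rw [this]
    linarith
  obtain ⟨hT0, hTr, hTc, -⟩ := Pool.Agent.Q68.LC.bas2 V e ω A δ h0 h1
  obtain ⟨T, hT⟩ : ∃ T, T = TT e ω A δ n := ⟨_, rfl⟩
  have hT0' : ∀ x y, 0 ≤ T x y := fun x y => by rw [hT]; exact hT0 n x y
  have hTr' : ∀ x, ∑ y, T x y = 1 := fun x => by rw [hT]; exact hTr n x
  have hTc' : ∀ y, ∑ x, T x y = 1 := fun y => by rw [hT]; exact hTc n y
  have hdet : 0 < dS w (univ \ A) T :=
    (Pool.Agent.Q68.LC.grn V T w 0 (univ \ A) x₀ x₀ hT0' (fun a => (hTr' a).le) (by linarith) hw1).1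
  rw [← hT] at hf ⊢
  obtain ⟨M, hM⟩ : ∃ M, M = 1 - w • (dg (univ \ A) * T) := ⟨_, rfl⟩
  have hMdet : IsUnit M.det := by
    rw [hM]
    exact (ne_of_gt hdet).isUnit
  rw [← hM]
  obtain ⟨f, hfd⟩ : ∃ f, f = M⁻¹ *ᵥ φ := ⟨_, rfl⟩
  rw [← hfd]
  have hMf : M *ᵥ f = φ := by
    rw [hfd, mulVec_mulVec, mul_nonsing_inv M hMdet, one_mulVec]
  have hrow : ∀ x, φ x = f x - w * (if x ∈ univ \ A then ∑ y, T x y * f y else 0) := by
    intro x
    have h2 : (M *ᵥ f) x = f x - w * (if x ∈ univ \ A then ∑ y, T x y * f y else 0) := by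
      rw [hM, sub_mulVec, one_mulVec, Pi.sub_apply, smul_mulVec, Pi.smul_apply, smul_eq_mul,
        ← mulVec_mulVec]
      unfold dg
      rw [mulVec_diagonal]
      congr 2
      by_cases hx : x ∈ univ \ A
      · rw [if_pos hx, if_pos hx, one_mul]
        rfl
      · rw [if_neg hx, if_neg hx, zero_mul]
    rw [← h2, hMf]
  have hfA : ∀ a ∈ A, f a = 0 := by
    intro a ha
    have h2 := hrow a
    rw [hA a ha, if_neg (by simp [ha])] at h2
    linarith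
  have hX : φ ⬝ᵥ f = ∑ x, f x ^ 2 - w * ∑ x, ∑ y, T x y * (f x * f y) := by
    unfold dotProduct
    rw [Finset.mul_sum, ← Finset.sum_sub_distrib]
    refine Finset.sum_congr rfl fun x _ => ?_
    rw [hrow x]
    by_cases hx : x ∈ A
    · rw [hfA x hx]
      simp
    · rw [if_pos (by simp [hx])]
      have h3 : ∑ y, T x y * (f x * f y) = f x * ∑ y, T x y * f y := by
        rw [Finset.mul_sum]
        refine Finset.sum_congr rfl fun y _ => ?_
        ring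
      rw [h3]
      ring
  have hE : ∑ x, ∑ y, T x y * (f x - f y) ^ 2 =
      2 * ∑ x, f x ^ 2 - 2 * ∑ x, ∑ y, T x y * (f x * f y) := by
    have e1 : ∑ x, ∑ y, T x y * f x ^ 2 = ∑ x, f x ^ 2 := by
      refine Finset.sum_congr rfl fun x _ => ?_
      rw [← Finset.sum_mul, hTr' x, one_mul]
    have e2 : ∑ x, ∑ y, T x y * f y ^ 2 = ∑ x, f x ^ 2 := by
      rw [Finset.sum_comm]
      refine Finset.sum_congr rfl fun y _ => ?_
      rw [← Finset.sum_mul, hTc' y, one_mul]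
    have e3 : ∀ x y, T x y * (f x - f y) ^ 2 =
        T x y * f x ^ 2 + T x y * f y ^ 2 - 2 * (T x y * (f x * f y)) := by
      intro x y; ring
    simp only [e3, Finset.sum_sub_distrib, Finset.sum_add_distrib, ← Finset.mul_sum]
    rw [e1, e2]
    ring
  have hf2 : 0 ≤ ∑ x, f x ^ 2 := Finset.sum_nonneg fun x _ => sq_nonneg _
  have hE0 : 0 ≤ ∑ x, ∑ y, T x y * (f x - f y) ^ 2 :=
    Finset.sum_nonneg fun x _ => Finset.sum_nonneg fun y _ =>
      mul_nonneg (hT0' x y) (sq_nonneg _)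
  have h4 := hf f
  obtain ⟨X, hXd⟩ : ∃ X, X = φ ⬝ᵥ f := ⟨_, rfl⟩
  obtain ⟨E, hEd⟩ : ∃ E, E = ∑ x, ∑ y, T x y * (f x - f y) ^ 2 := ⟨_, rfl⟩
  rw [← hXd] at h4 hX ⊢
  rw [← hEd] at h4 hE hE0
  have h5 : E ≤ 4 * X := by nlinarith
  have h6 : X ^ 2 ≤ 4 * Λ * X := by nlinarith
  have hX0 : 0 ≤ X := by linarith
  rcases hX0.lt_or_eq with h7 | h7
  · nlinarith
  · rw [← h7]; positivity

end Run7.h565.LC
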