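import Pool.Agent.Run7.h565.LC.Iface
import Pool.Agent.Run7.h565.LC.Mid
import Pool.Agent.Run7.h565.LC.Eng
import Pool.Agent.Run7.h34.LC.DYA
import Pool.Agent.Run7.h34.LC.CNT
import Pool.Agent.Run7.h992.LC.Dva
import Pool.Agent.Run7.h576.LC.Lam
import Pool.Agent.Run7.h736.LC.Res
import Pool.Agent.Run7.h760.LC.Dev
import Pool.Agent.Y661.PD.AllC

/-!
# The Poisson-Dirichlet law for nearest neighbour stirring at all times `t ≥ (log L) ^ m`
-/

set_option autoImplicit false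

namespace Run7.h565.LC

open Finset Equiv Q292.LC
open Pool.Agent.TH268.PD (top frac pdm)
open Pool.Agent.Y998.ST (stirExp nnRate)

theorem all_res : S_RES := Run7.h736.LC.t_RES i_L1 i_GRN i_P1 i_BAS1 i_BAS2 i_BAS3

theorem all_lam : S_LAM := Run7.h576.LC.lam eng Run7.h34.LC.dya Run7.h34.LC.cnt

theorem all_dev : S_DEV :=
  Pool.Agent.Run7.h760.LC.dev i_BTL i_PEB i_GDM i_DME all_res all_lam Pool.Agent.Run7.h992.LC.t_DVA

/-- the Poisson-Dirichlet law for the torus at all times `t ≥ (log L) ^ m₀` -/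
theorem pd_all (d : ℕ) (hd : 3 ≤ d) : ∃ m₀ : ℕ,
    ∀ (m : ℕ) (f : (Fin m → ℝ) → ℝ), Continuous f → ∀ M : ℝ, (∀ u, |f u| ≤ M) →
    ∀ η : ℝ, 0 < η → ∃ L₀ : ℕ, ∀ (L : ℕ) [NeZero L], L₀ ≤ L → ∀ t : ℝ,
    (Real.log L) ^ m₀ ≤ t →
    |stirExp (nnRate d L) t (fun g => f (fun i => top (frac g) i)) - pdm f| ≤ η := by
  obtain ⟨m₀, h1⟩ := pd_mid all_dev d hd
  refine ⟨m₀, fun m f hf M hM η hη => ?_⟩
  obtain ⟨L₁, h2⟩ := h1 m f hf M hM η hη
  have had : Pool.Agent.Y661.PD.ad d < 3 / 2 := by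
    have hd' : (3 : ℝ) ≤ d := by exact_mod_cast hd
    unfold Pool.Agent.Y661.PD.ad
    refine max_lt ?_ ?_
    · rw [div_lt_div_iff₀ (by linarith) (by norm_num)]
      linarith
    · rw [div_lt_div_iff₀ (by linarith) (by norm_num)]
      linarith
  obtain ⟨L₂, h3⟩ := Pool.Agent.Y661.PD.allC d hd (3 / 2 - Pool.Agent.Y661.PD.ad d)
    (by linarith) m f hf M hM η hη
  refine ⟨max (max L₁ L₂) 1, fun L _ hL t ht => ?_⟩
  have hL1 : L₁ ≤ L := (le_max_left _ _).trans ((le_max_left _ _).trans hL)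
  have hL2 : L₂ ≤ L := (le_max_right _ _).trans ((le_max_left _ _).trans hL)
  have hL3 : (1 : ℝ) ≤ L := by exact_mod_cast (le_max_right _ _).trans hL
  rcases le_or_gt (t ^ 2) ((L : ℝ) ^ 3) with h4 | h4
  · exact h2 L hL1 t ht h4
  · refine h3 L hL2 t ?_
    have ht0 : 0 ≤ t := (pow_nonneg (Real.log_nonneg hL3) m₀).trans ht
    rw [add_sub_cancel]
    have h5 : ((L : ℝ) ^ (3 / 2 : ℝ)) ^ 2 = (L : ℝ) ^ 3 := by
      rw [← Real.rpow_natCast, ← Real.rpow_mul (by linarith), ← Real.rpow_natCast]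
      norm_num
    rw [← h5] at h4
    exact (abs_le_of_sq_le_sq' h4.le ht0).2

end Run7.h565.LC
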