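import Pool.Agent.Run7.h565.LC.Cla

/-!
# KPT: the cycle partition of `k` points anywhere on the torus
-/

set_option autoImplicit false

namespace Run7.h565.LC

open Finset Equiv Q292.LC
open Pool.Agent.TH268.PD (top frac Cyc cyOf pdm)
open Pool.Agent.Y998.LP (bfrac NN tdist)
open Pool.Agent.Y998.ST (stirExp stirLaw nnRate law_nonneg nn_nonneg)

theorem stir_sum {V ι : Type} [Fintype V] [DecidableEq V] (J : V → V → ℝ)
    (t : ℝ) (S : Finset ι) (F : ι → Perm V → ℝ) (N : ℝ) :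
    stirExp J t (fun g => (∑ z ∈ S, F z g) / N) = (∑ z ∈ S, stirExp J t (F z)) / N := by
  unfold stirExp
  rw [Finset.sum_comm, Finset.sum_div]
  refine Finset.sum_congr rfl fun g _ => ?_
  rw [← Finset.mul_sum]
  ring

theorem stir_sum' {V ι : Type} [Fintype V] [DecidableEq V] (J : V → V → ℝ)
    (t : ℝ) (S : Finset ι) (F : ι → Perm V → ℝ) (c : ℝ) :
    stirExp J t (fun g => c * ∑ z ∈ S, F z g) = c * ∑ z ∈ S, stirExp J t (F z) := by
  unfold stirExp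
  rw [Finset.sum_comm, Finset.mul_sum]
  refine Finset.sum_congr rfl fun g _ => ?_
  rw [← Finset.mul_sum]
  ring

variable {d L : ℕ} [NeZero L]

theorem tdist_box (z x y : Fin d → ZMod L) (r : ℕ) (hx : x ∈ box z r) (hy : y ∈ box z r) :
    tdist x y ≤ d * r := by
  unfold tdist
  refine (Finset.sum_le_sum fun i _ => (?_ : _ ≤ r)).trans ?_
  · unfold Q292.LC.box at hx hy
    rw [Finset.mem_filter] at hx hy
    have hxi := hx.2 i
    have hyi := hy.2 i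
    have e2 : ((((x i - z i).val : ℤ) - ((y i - z i).val : ℤ) : ℤ) : ZMod L) = x i - y i := by
      push_cast
      rw [ZMod.natCast_zmod_val, ZMod.natCast_zmod_val]
      ring
    have e3 := Pool.Agent.Q53.LC.natAbs_le_of_cast (x i - y i) _ e2
    refine e3.trans ?_
    omega
  · simp

theorem self_mem_box (z : Fin d → ZMod L) (r : ℕ) (hr : 1 ≤ r) : z ∈ box z r := by
  unfold Q292.LC.box
  rw [Finset.mem_filter]
  refine ⟨Finset.mem_univ _, fun i => ?_⟩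
  rw [sub_self, ZMod.val_zero]
  omega

theorem le_Dm (r : ℕ) (z : Fin d → ZMod L) (g : Perm (Fin d → ZMod L)) (γ : Cyc g) :
    |bfrac (box z r) g γ - frac g γ| ≤ Dm r z g := by
  unfold Dm
  exact le_ciSup (f := fun γ : Cyc g => |bfrac (box z r) g γ - frac g γ|)
    (Set.finite_range _).bddAbove γ

theorem kpt (hA : S_CLA) (hB : S_CLB) (hM : S_MIX) (hC : S_CPR) (hU : S_LOU) : S_KPT := by
  classical
  intro d hd
  obtain ⟨m₀, hA⟩ := hA d hd
  have hB := hB d hd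
  refine ⟨m₀, fun k η hη => ?_⟩
  obtain ⟨C, hC0, hdist⟩ := Pool.Agent.Y998.LQ.t_dist d (by omega)
  obtain ⟨h, hh⟩ : ∃ h : ℕ, h = ⌈(12 * k * C * d + 24 * (k : ℝ) ^ 2) / η⌉₊ + 1 := ⟨_, rfl⟩
  have hh1 : 1 ≤ h := by omega
  have hh1' : (1 : ℝ) ≤ h := by exact_mod_cast hh1
  have hh2 : 12 * k * C * d + 24 * (k : ℝ) ^ 2 ≤ η * h := by
    have h1 := Nat.le_ceil ((12 * k * C * d + 24 * (k : ℝ) ^ 2) / η)
    rw [div_le_iff₀ hη] at h1
    rw [hh]
    push_cast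
    nlinarith
  obtain ⟨η', hη'⟩ : ∃ η' : ℝ, η' = η / (16 * ((k : ℝ) ^ 2 + 1)) := ⟨_, rfl⟩
  have hη'0 : 0 < η' := by rw [hη']; positivity
  obtain ⟨L₁, hA⟩ := hA h η' hη'0
  obtain ⟨L₂, hB⟩ := hB h η' hη'0
  refine ⟨max (max L₁ L₂) 3, fun L _ hL t ht b hb Ψ hΨ => ?_⟩
  have hL1 : L₁ ≤ L := (le_max_left _ _).trans ((le_max_left _ _).trans hL)
  have hL2 : L₂ ≤ L := (le_max_right _ _).trans ((le_max_left _ _).trans hL)
  have hL3 : 3 ≤ L := (le_max_right _ _).trans hL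
  have hlog : 0 < Real.log L := Real.log_pos (by exact_mod_cast (by omega : 1 < L))
  have ht0 : 0 < t := lt_of_lt_of_le (by positivity) ht
  have hst : 0 < Real.sqrt t := Real.sqrt_pos.2 ht0
  have hJ : ∀ x y : Fin d → ZMod L, 0 ≤ nnRate d L x y := nn_nonneg
  obtain ⟨r, hhr, hrL, hrt, hD⟩ : ∃ r : ℕ, h ≤ r ∧ r ≤ L ∧ (r : ℝ) * h ≤ Real.sqrt t ∧
      ∀ z : Fin d → ZMod L, stirExp (nnRate d L) t (fun g => Dm r z g) ≤ η' := by
    rcases le_total t ((L : ℝ) ^ 2) with h1 | h1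
    · exact hA L hL1 t ht h1
    · exact hB L hL2 t h1
  have hr1 : 1 ≤ r := hh1.trans hhr
  have hr1' : (1 : ℝ) ≤ r := by exact_mod_cast hr1
  have hk0 : (0 : ℝ) ≤ k := Nat.cast_nonneg k
  have hd0 : (0 : ℝ) ≤ d := Nat.cast_nonneg d
  have hcard : ∀ z : Fin d → ZMod L, (box z r).card = r ^ d :=
    fun z => Pool.Agent.Q187.LC.Nas.card_box z r hrL
  have hrd : r ≤ r ^ d := Nat.le_self_pow (by omega) r
  have hrd' : (h : ℝ) ≤ (r : ℝ) ^ d := by exact_mod_cast hhr.trans hrd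
  obtain ⟨θ, hθ⟩ : ∃ θ : ℝ, θ = C * d / h := ⟨_, rfl⟩
  have hθ0 : 0 ≤ θ := by rw [hθ]; positivity
  have hNN : ∀ z x y : Fin d → ZMod L, x ∈ box z r → y ∈ box z r →
      NN (nnRate d L) t (swap x y) ≤ θ := by
    intro z x y hx hy
    refine (hdist L hL3 t ht0 x y).trans ?_
    have h2 : (tdist x y : ℝ) ≤ d * r := by exact_mod_cast tdist_box z x y r hx hy
    rw [hθ, div_le_div_iff₀ hst (by linarith)]
    calc C * (tdist x y : ℝ) * h ≤ C * (d * r) * h := by gcongr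
      _ = (C * d) * (r * h) := by ring
      _ ≤ C * d * Real.sqrt t := mul_le_mul_of_nonneg_left hrt (by positivity)
  -- step 1
  have h1 := hM (Fin d → ZMod L) (nnRate d L) hJ t ht0.le k b hb (fun i => box (b i) r) r θ
    (by omega) (fun i => by rw [hcard]; exact hrd) hθ0
    (fun i y hy => hNN (b i) (b i) y (self_mem_box (b i) r hr1) hy) Ψ 1 hΨ
  -- step 4
  have h4 := hU (Fin d → ZMod L) (nnRate d L) hJ t ht0.le k (box 0 r) θ
    (by rw [hcard]; positivity) hθ0 (fun x hx y hy => hNN 0 x y hx hy) Ψ 1 hΨ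
  -- steps 2 and 3
  obtain ⟨A2, hA2⟩ : ∃ A2 : Perm (Fin d → ZMod L) → ℝ, A2 = fun g =>
    (∑ b' : Fin k → (Fin d → ZMod L), Ψ (rel g b')) / (Fintype.card (Fin d → ZMod L) : ℝ) ^ k :=
    ⟨_, rfl⟩
  have h2 : ∀ b₀ : Fin k → (Fin d → ZMod L),
      |stirExp (nnRate d L) t (fun g => (∑ b' ∈ Fintype.piFinset (fun i => box (b₀ i) r),
        Ψ (rel g b')) / ∏ i, ((box (b₀ i) r).card : ℝ)) - stirExp (nnRate d L) t A2| ≤
        2 * (k : ℝ) ^ 2 * η' := by
    intro b₀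
    have e1 : ∀ g : Perm (Fin d → ZMod L), |(∑ b' ∈ Fintype.piFinset (fun i => box (b₀ i) r),
        Ψ (rel g b')) / ∏ i, ((box (b₀ i) r).card : ℝ) - A2 g| ≤
        0 + 2 * k * ∑ i, Dm r (b₀ i) g := by
      intro g
      rw [zero_add, hA2]
      have := hC (Fin d → ZMod L) g k (fun i => box (b₀ i) r) (fun i => Dm r (b₀ i) g)
        (fun i => ⟨b₀ i, self_mem_box (b₀ i) r hr1⟩) (fun i γ => le_Dm r (b₀ i) g γ) Ψ 1 hΨ
      simpa using this
    have e2 := stir_lin hJ ht0.le _ A2 _ 0 e1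
    refine e2.trans ?_
    rw [zero_add, stir_sum' (nnRate d L) t Finset.univ (fun i g => Dm r (b₀ i) g) (2 * k)]
    calc 2 * (k : ℝ) * ∑ i : Fin k, stirExp (nnRate d L) t (fun g => Dm r (b₀ i) g)
        ≤ 2 * (k : ℝ) * ∑ _i : Fin k, η' :=
          mul_le_mul_of_nonneg_left (Finset.sum_le_sum fun i _ => hD (b₀ i)) (by positivity)
      _ = 2 * (k : ℝ) ^ 2 * η' := by
          rw [Finset.sum_const, Finset.card_univ, Fintype.card_fin, nsmul_eq_mul]
          ring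
  have h3 := h2 b
  have h5 := h2 (fun _ => 0)
  rw [stir_sum (nnRate d L) t (Fintype.piFinset fun i => box (b i) r)
    (fun b' g => Ψ (rel g b'))] at h3
  rw [stir_sum (nnRate d L) t (Fintype.piFinset fun _ : Fin k => box 0 r)
    (fun b' g => Ψ (rel g b')), Finset.prod_const, Finset.card_univ, Fintype.card_fin] at h5
  have e1 : 2 * 1 * k * θ + k * 1 * θ ≤ η / 4 := by
    have : 12 * k * C * d ≤ η * h := by
      have : 0 ≤ 24 * (k : ℝ) ^ 2 := by positivity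
      linarith
    rw [hθ]
    have e : 2 * 1 * (k : ℝ) * (C * d / h) + k * 1 * (C * d / h) = (3 * k * C * d) / h := by ring
    rw [e, div_le_div_iff₀ (by linarith) (by norm_num)]
    linarith
  have e2 : 4 * 1 * (k : ℝ) ^ 2 / r + 2 * 1 * (k : ℝ) ^ 2 / ((box (0 : Fin d → ZMod L) r).card : ℝ) ≤
      η / 4 := by
    rw [hcard]
    push_cast
    have a1 : 4 * 1 * (k : ℝ) ^ 2 / r ≤ 4 * 1 * (k : ℝ) ^ 2 / h := by
      refine div_le_div_of_nonneg_left (by positivity) (by linarith) ?_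
      exact_mod_cast hhr
    have a2 : 2 * 1 * (k : ℝ) ^ 2 / (r : ℝ) ^ d ≤ 2 * 1 * (k : ℝ) ^ 2 / h :=
      div_le_div_of_nonneg_left (by positivity) (by linarith) hrd'
    have a3 : 4 * 1 * (k : ℝ) ^ 2 / h + 2 * 1 * (k : ℝ) ^ 2 / h ≤ η / 4 := by
      have a4 : 24 * (k : ℝ) ^ 2 ≤ η * h := by
        have : 0 ≤ 12 * k * C * d := by positivity
        linarith
      rw [← add_div, div_le_div_iff₀ (by linarith) (by norm_num)]
      linarith
    linarith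
  have e3 : 2 * (k : ℝ) ^ 2 * η' + 2 * (k : ℝ) ^ 2 * η' ≤ η / 4 := by
    rw [hη']
    have e : 2 * (k : ℝ) ^ 2 * (η / (16 * ((k : ℝ) ^ 2 + 1))) +
        2 * (k : ℝ) ^ 2 * (η / (16 * ((k : ℝ) ^ 2 + 1))) =
        (η * (k : ℝ) ^ 2) / (4 * ((k : ℝ) ^ 2 + 1)) := by
      field_simp
      ring
    rw [e, div_le_div_iff₀ (by positivity) (by norm_num)]
    nlinarith [sq_nonneg (k : ℝ)]
  rw [abs_le] at h1 h3 h4 h5 ⊢
  constructor <;> linarith [h1.1, h1.2, h3.1, h3.2, h4.1, h4.2, h5.1, h5.2]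

end Run7.h565.LC
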