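import Pool.Agent.Run7.h565.LC.Fin
import Pool.Agent.Run7.h565.LC.Kpt

/-!
# Any points and any sets, all times `t ≥ (log L) ^ m`
-/

set_option autoImplicit false

namespace Run7.h565.LC

open Finset Equiv Q292.LC
open Pool.Agent.TH268.PD (top frac Cyc cyOf pdm)
open Pool.Agent.Y998.LP (bfrac NN tdist)
open Pool.Agent.Y998.ST (stirExp stirLaw nnRate law_nonneg nn_nonneg)

/-- any sets -/
theorem any_sets (hK : S_KPT) (hS : S_SET) (d : ℕ) (hd : 3 ≤ d) : ∃ m₀ : ℕ,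
    ∀ (m : ℕ) (f : (Fin m → ℝ) → ℝ), Continuous f → ∀ M : ℝ, (∀ u, |f u| ≤ M) →
    ∀ η : ℝ, 0 < η → ∃ L₀ N₀ : ℕ, ∀ (L : ℕ) [NeZero L], L₀ ≤ L → ∀ t : ℝ,
    (Real.log L) ^ m₀ ≤ t → ∀ B : Finset (Fin d → ZMod L), N₀ ≤ B.card →
    |stirExp (nnRate d L) t (fun g => f (fun i => top (bfrac B g) i)) - pdm f| ≤ η := by
  obtain ⟨m₀, hK⟩ := hK d hd
  refine ⟨m₀, fun m f hf M hM η hη => ?_⟩
  obtain ⟨k, N₀, η', hη', _, h1⟩ := hS m f hf M hM η hη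
  obtain ⟨L₀, h2⟩ := hK k η' hη'
  refine ⟨max L₀ 1, N₀, fun L _ hL t ht B hB => ?_⟩
  have hL1 : (1 : ℝ) ≤ L := by exact_mod_cast (le_max_right _ _).trans hL
  have ht0 : 0 ≤ t := (pow_nonneg (Real.log_nonneg hL1) m₀).trans ht
  exact h1 (Fin d → ZMod L) (nnRate d L) nn_nonneg t ht0 B hB
    (fun b hb _ Ψ hΨ => h2 L ((le_max_left _ _).trans hL) t ht b hb Ψ hΨ)

/-- the cycle length of a point -/
theorem uni_len (hK : S_KPT) (hU : S_UNI) (d : ℕ) (hd : 3 ≤ d) : ∃ m₀ : ℕ,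
    ∀ ε : ℝ, 0 < ε → ∃ L₀ : ℕ, ∀ (L : ℕ) [NeZero L], L₀ ≤ L → ∀ t : ℝ,
    (Real.log L) ^ m₀ ≤ t → ∀ (x : Fin d → ZMod L) (u : ℝ), 0 ≤ u → u ≤ 1 →
    |stirExp (nnRate d L) t (fun g => if ((cyc g x).card : ℝ) ≤ u * (L : ℝ) ^ d then 1 else 0) -
      u| ≤ ε := by
  obtain ⟨m₀, hK⟩ := hK d hd
  refine ⟨m₀, fun ε hε => ?_⟩
  obtain ⟨k, N₀, η', hη', _, h1⟩ := hU ε hε
  obtain ⟨L₀, h2⟩ := hK k η' hη'
  refine ⟨max (max L₀ 1) N₀, fun L _ hL t ht x u hu0 hu1 => ?_⟩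
  have hL0 : L₀ ≤ L := (le_max_left _ _).trans ((le_max_left _ _).trans hL)
  have hL1' : 1 ≤ L := (le_max_right _ _).trans ((le_max_left _ _).trans hL)
  have hL1 : (1 : ℝ) ≤ L := by exact_mod_cast hL1'
  have ht0 : 0 ≤ t := (pow_nonneg (Real.log_nonneg hL1) m₀).trans ht
  have hN : N₀ ≤ Fintype.card (Fin d → ZMod L) := by
    rw [Fintype.card_fun, ZMod.card, Fintype.card_fin]
    exact ((le_max_right _ _).trans hL).trans (Nat.le_self_pow (by omega) L)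
  have h3 := h1 (Fin d → ZMod L) (nnRate d L) nn_nonneg t ht0 hN
    (fun b hb Ψ hΨ => h2 L hL0 t ht b hb Ψ hΨ) x u hu0 hu1
  rw [Fintype.card_fun, ZMod.card, Fintype.card_fin] at h3
  push_cast at h3
  exact h3

end Run7.h565.LC
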