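import Pool.Agent.Run7.h565.LC.Fin2
import Pool.Agent.Run7.h321.LC.Cpr
import Pool.Agent.Run7.h824.LC.Pts
import Pool.Agent.Run7.h576.LC.Clb

/-!
# `S_KPT` from `S_DEV2`
-/

set_option autoImplicit false

namespace Run7.h565.LC

/-- any points, from the deviation bound for times up to `L ^ 2` -/
theorem kpt_of_dev2 (h : S_DEV2) : S_KPT :=
  kpt (cla h) Run7.h576.LC.Clb.clb Run7.h824.LC.t_MIX Run7.h321.LC.cpr Run7.h824.LC.t_LOU

end Run7.h565.LC
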