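import Pool.Agent.Run7.h565.LC.Hand2
import Pool.Agent.Run7.h565.LC.Dev2
import Pool.Agent.Run7.h565.LC.Fin
import Pool.Agent.Run7.h321.LC.Uni
import Pool.Agent.Run7.h617.LC.Set

/-!
# `S_DEV2` and `S_KPT` without hypotheses
-/

set_option autoImplicit false

namespace Run7.h565.LC

open Q292.LC

theorem t_DEV2 : S_DEV2 :=
  dev2 i_BTL i_PEB i_GDM i_DME all_res all_lam Pool.Agent.Run7.h992.LC.t_DVA

theorem t_KPT : S_KPT := kpt_of_dev2 t_DEV2

end Run7.h565.LC
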