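import Pool.Agent.Q292.LC.FinT
import Pool.Agent.Q292.LC.Stm7
import Pool.Agent.Q257.LC.BadpU
import Pool.Agent.Q257.LC.L1
import Pool.Agent.Q257.LC.PeelU
import Pool.Agent.Q151.LC.Con1
import Pool.Agent.Q151.LC.Con2
import Pool.Agent.Q151.LC.Nea
import Pool.Agent.Q277.LC.Pe
import Pool.Agent.Q277.LC.Omr
import Pool.Agent.Q277.LC.Sub
import Pool.Agent.Q154.LC.Gdm
import Pool.Agent.Q187.LC.Nas
import Pool.Agent.Q187.LC.Tch
import Pool.Agent.Q187.LC.Rev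
import Pool.Agent.Q53.LC.Poi
import Pool.Agent.Q68.LC.Bas1
import Pool.Agent.Q68.LC.Bas2
import Pool.Agent.Q68.LC.Bas3
import Pool.Agent.Q68.LC.Grn
import Pool.Agent.Q68.LC.Rot
import Pool.Agent.Q229.LC.HK
import Pool.Agent.Q297.LC.Tro

/-!
# Interface of the statements which are proved in the starting tree
-/

set_option autoImplicit false

namespace Run7.h565.LC

open Q292.LC

theorem i_BAS1 : S_BAS1 := Pool.Agent.Q68.LC.bas1
theorem i_BAS2 : S_BAS2 := Pool.Agent.Q68.LC.bas2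
theorem i_BAS3 : S_BAS3 := Pool.Agent.Q68.LC.bas3
theorem i_ROT : S_ROT := Pool.Agent.Q68.LC.t_rot
theorem i_L1 : S_L1 := Pool.Agent.Q257.LC.l1
theorem i_GRN : S_GRN := Pool.Agent.Q68.LC.grn
theorem i_P3 : S_P3 := Pool.Agent.Q153.LC.p3
theorem i_P4 : S_P4 := Pool.Agent.Q153.LC.p4
theorem i_P1 : S_P1 := Pool.Agent.Q277.LC.p1_all
theorem i_TCH : S_TCH := Pool.Agent.Q187.LC.Tch.tch
theorem i_CON1 : S_CON1 := Pool.Agent.Q151.LC.con1
theorem i_CON2 : S_CON2 := Pool.Agent.Q151.LC.con2 i_TCH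
theorem i_NEA : S_NEA := Pool.Agent.Q151.LC.nea
theorem i_POI : S_POI := Pool.Agent.Q53.LC.poi
theorem i_NAS : S_NAS := Pool.Agent.Q187.LC.Nas.nas i_POI
theorem i_SUB : S_SUB := Pool.Agent.Q277.LC.sub
theorem i_REV : S_REV := Pool.Agent.Q187.LC.Rev.rev
theorem i_GE : S_GE := Pool.Agent.Q277.LC.ge
theorem i_FRE : S_FRE := Pool.Agent.Q257.LC.fre
theorem i_LAP : S_LAP := Pool.Agent.Q257.LC.lap
theorem i_KER : S_KER := Pool.Agent.Q257.LC.ker
theorem i_JMP : S_JMP := Pool.Agent.Q66.LC.jmp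
theorem i_OMR : S_OMR := Pool.Agent.Q277.LC.omr
theorem i_GDM : S_GDM := Pool.Agent.Q154.LC.gdm
theorem i_HKT : S_HKT := Pool.Agent.Q229.LC.HK.hkt
theorem i_HKL : S_HKL := Pool.Agent.Q229.LC.HK.hkl
theorem i_TRO : S_TRO := Pool.Agent.Q297.LC.tro
theorem i_PEB : S_PEB := Pool.Agent.Q277.LC.peb
theorem i_MRK : S_MRK := Pool.Agent.Q277.LC.mrk
theorem i_DME : S_DME := Pool.Agent.Q277.LC.dme
theorem i_OMP : S_OMP := all_omp
theorem i_BTL : S_BTL := all_btl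
theorem i_TLS : S_TLS := all_tls

end Run7.h565.LC
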